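import Mathlib

set_option autoImplicit false

/-!
# Ages of relational structures of all arities: base definitions

Structures, pull backs, terms (ordered binary trees with labels), points, the interface `SYS`.
Equality is treated as one more relation symbol, so embeddings are maps `f` with `pull f B = A`.
-/

namespace Pool.Agent.Lib.MP_4fb322_lc_q

open Set Filter

/-! ## Structures -/

/-- relational structures of signature `ar` on the type `V` -/
abbrev St {I : Type} (ar : I → ℕ) (V : Type) : Type := (i : I) → Set (Fin (ar i) → V)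

/-- the structure pulled back along `f` -/
def pull {I : Type} {ar : I → ℕ} {X V : Type} (f : X → V) (M : St ar V) : St ar X :=
  fun i => {t | f ∘ t ∈ M i}

/-- finite structures on the sets `Fin n` -/
abbrev FS {I : Type} (ar : I → ℕ) : Type := Σ n : ℕ, St ar (Fin n)

/-- `A` is the pull back of `B` along some map -/
def FLe {I : Type} {ar : I → ℕ} (A B : FS ar) : Prop :=
  ∃ f : Fin A.1 → Fin B.1, pull f B.2 = A.2

/-- `A` is realised in `M` -/
def Real {I : Type} {ar : I → ℕ} {V : Type} (M : St ar V) (A : FS ar) : Prop :=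
  ∃ f : Fin A.1 → V, pull f M = A.2

/-- `A` is realised in `M` by different points -/
def RealI {I : Type} {ar : I → ℕ} {V : Type} (M : St ar V) (A : FS ar) : Prop :=
  ∃ f : Fin A.1 → V, Function.Injective f ∧ pull f M = A.2

/-- the signature with a symbol for equality -/
def arE {I : Type} (ar : I → ℕ) : Option I → ℕ
  | none => 2
  | some i => ar i

/-- the structure with equality as a relation -/
def stE {I : Type} {ar : I → ℕ} {V : Type} (M : St ar V) : St (arE ar) V
  | none => {t : Fin 2 → V | t 0 = t 1}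
  | some i => M i

/-- one of the relations of `M` is equality of two coordinates -/
def HasEq {I : Type} {ar : I → ℕ} {V : Type} (M : St ar V) : Prop :=
  ∃ (i : I) (a b : Fin (ar i)), a ≠ b ∧ ∀ t, t ∈ M i ↔ t a = t b

/-- finitely many types of `n`-tuples -/
def FinTy {I : Type} {ar : I → ℕ} {V : Type} (M : St ar V) : Prop :=
  ∀ n : ℕ, (Set.range (fun f : Fin n → V => pull f M)).Finite

open Classical in
/-- `F` on `A`, `G` outside `A` -/
noncomputable def mrg {Q V : Type} (A : Set Q) (F G : Q → V) : Q → V :=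
  fun q => if q ∈ A then F q else G q

/-- `B` has no independence property for any partition of its variables -/
def Tame {Q V : Type} (B : Set (Q → V)) : Prop :=
  ∀ A : Set Q, ∃ m : ℕ, ¬ ∃ (F : Fin m → Q → V) (G : Set (Fin m) → Q → V),
    ∀ (j : Fin m) (S : Set (Fin m)), mrg A (F j) (G S) ∈ B ↔ j ∈ S

/-- NIP for all quantifier free types -/
def Nip {I : Type} {ar : I → ℕ} {V : Type} (M : St ar V) : Prop :=
  ∀ (n : ℕ) (A : St ar (Fin n)), Tame {f : Fin n → V | pull f M = A}

/-- minimality: every family of finite structures (along an ultrafilter) into which `z` and infinitely many `a j`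
embed mostly is full: every finite structure realised in `M` embeds mostly. -/
def MIN {I : Type} {ar : I → ℕ} {V : Type} (M : St ar V) (z : FS ar) (a : ℕ → FS ar) : Prop :=
  ∀ (ι : Type) (W : Ultrafilter ι) (N : ι → FS ar), (∀ i, Real M (N i)) →
    (∀ᶠ i in (W : Filter ι), FLe z (N i)) →
    (∃ᶠ j in (atTop : Filter ℕ), ∀ᶠ i in (W : Filter ι), FLe (a j) (N i)) →
    ∀ B : FS ar, Real M B → ∀ᶠ i in (W : Filter ι), FLe B (N i)

/-! ## Terms -/

/-- ordered binary trees with labels at the leaves -/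
inductive Tm (L : Type) : Type
  | leaf : L → Tm L
  | node : Tm L → Tm L → Tm L

namespace Tm

variable {L M : Type}

/-- the list of labels -/
def lv : Tm L → List L
  | leaf a => [a]
  | node s t => s.lv ++ t.lv

/-- change of labels -/
def map (f : L → M) : Tm L → Tm M
  | leaf a => leaf (f a)
  | node s t => node (s.map f) (t.map f)

/-- substitution of trees for the leaves -/
def subst (f : L → Tm M) : Tm L → Tm M
  | leaf a => f a
  | node s t => node (s.subst f) (t.subst f)

/-- the comb of a nonempty list of trees -/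
def comb : Tm L → List (Tm L) → Tm L
  | t, [] => t
  | t, s :: l => node t (comb s l)

end Tm

/-- homeomorphic embedding of ordered labelled trees; for a tree `t` without repeated labels it says that
`s` is the tree induced on a set of leaves of `t` -/
inductive Sub {L : Type} : Tm L → Tm L → Prop
  | leaf (a : L) : Sub (.leaf a) (.leaf a)
  | left {s t t' : Tm L} : Sub s t → Sub s (.node t t')
  | right {s t t' : Tm L} : Sub s t' → Sub s (.node t t')
  | node {s s' t t' : Tm L} : Sub s t → Sub s' t' → Sub (.node s s') (.node t t')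

/-! ## Points -/

/-- the points of all labels -/
abbrev Pt {L : Type} (sz : L → ℕ) : Type := Σ l : L, Fin (sz l)

/-- the pins in `Π` and the points of the labels of `y` -/
def pts {L P : Type} (sz : L → ℕ) (y : Tm L) (K : Set P) : Set (P ⊕ Pt sz) :=
  {x | (∃ p ∈ K, x = Sum.inl p) ∨ ∃ q : Pt sz, q.1 ∈ y.lv ∧ x = Sum.inr q}

/-- a pair (label, map into the points of this label) -/
abbrev Mv {L : Type} (sz : L → ℕ) (l : L) : Type := Σ m : L, (Fin (sz l) → Fin (sz m))

/-- the map of points given by a family of moves; pins are fixed -/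
def mvPt {L P : Type} {sz : L → ℕ} (e : (l : L) → Mv sz l) : P ⊕ Pt sz → P ⊕ Pt sz
  | Sum.inl p => Sum.inl p
  | Sum.inr q => Sum.inr ⟨(e q.1).1, (e q.1).2 q.2⟩

/-! ## The interface -/

/-- A system of labels: `S y` is the structure of the term `y` (only its restriction to the points of `y` matters),
`FF l` is the filter of fine moves of the label `l`, `t j` the main terms with pins `pn j`. -/
structure SYS {I : Type} (ar : I → ℕ) where
  L : Type
  P : Type
  sz : L → ℕ
  S : Tm L → St ar (P ⊕ Pt sz)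
  FF : (l : L) → Filter (Mv sz l)
  t : ℕ → Tm L
  pn : ℕ → Finset P

namespace SYS

variable {I : Type} {ar : I → ℕ} (Y : SYS ar)

/-- the structures of `y` and `z` agree under the map of points given by `e` -/
def Agree (K : Set Y.P) (y z : Tm Y.L) (e : (l : Y.L) → Mv Y.sz l) : Prop :=
  ∀ (i : I) (a : Fin (ar i) → Y.P ⊕ Pt Y.sz), (∀ j, a j ∈ pts Y.sz y K) →
    (a ∈ Y.S y i ↔ (fun j => mvPt e (a j)) ∈ Y.S z i)

/-- `y` embeds into `z` by moves in `Q`: every leaf of `y` goes into one leaf of `z` -/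
def Le (Q : (l : Y.L) → Set (Mv Y.sz l)) (K : Set Y.P) (y z : Tm Y.L) : Prop :=
  ∃ e : (l : Y.L) → Mv Y.sz l, (∀ l ∈ y.lv, e l ∈ Q l) ∧ (∀ l ∈ y.lv, (e l).1 ∈ z.lv) ∧
    Set.InjOn (mvPt e) (pts Y.sz y K) ∧ Y.Agree K y z e

/-- some embedding of the structure of `y` (with the pins `K`) into that of `z` (with the pins `K'`) -/
def Emb (y : Tm Y.L) (K : Set Y.P) (z : Tm Y.L) (K' : Set Y.P) : Prop :=
  ∃ φ : Y.P ⊕ Pt Y.sz → Y.P ⊕ Pt Y.sz, MapsTo φ (pts Y.sz y K) (pts Y.sz z K') ∧
    ∀ (i : I) (a : Fin (ar i) → Y.P ⊕ Pt Y.sz), (∀ j, a j ∈ pts Y.sz y K) →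
      (a ∈ Y.S y i ↔ (fun j => φ (a j)) ∈ Y.S z i)

/-- open sets of moves -/
def Opn (l : Y.L) (Q : Set (Mv Y.sz l)) : Prop :=
  Q ∈ Y.FF l ∧ ∀ p ∈ Q, {r : Mv Y.sz p.1 | (⟨r.1, r.2 ∘ p.2⟩ : Mv Y.sz l) ∈ Q} ∈ Y.FF p.1

/-- the axioms of the interface -/
structure Ax : Prop where
  /-- the structure of an induced term -/
  res : ∀ s t : Tm Y.L, Sub s t → t.lv.Nodup → ∀ (i : I) (a : Fin (ar i) → Y.P ⊕ Pt Y.sz),
    (∀ j, a j ∈ pts Y.sz s univ) → (a ∈ Y.S s i ↔ a ∈ Y.S t i)
  /-- the identity is a fine move -/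
  refl : ∀ l : Y.L, ∀ Q ∈ Y.FF l, (⟨l, fun x => x⟩ : Mv Y.sz l) ∈ Q
  /-- fine moves are injective -/
  inj : ∀ l : Y.L, ∀ᶠ p in Y.FF l, Function.Injective p.2
  /-- the filters have bases of open sets -/
  base : ∀ (l : Y.L), ∀ Q ∈ Y.FF l, ∃ Q0 ⊆ Q, Y.Opn l Q0
  /-- local constancy -/
  lc : ∀ y : Tm Y.L, y.lv.Nodup → ∀ K : Finset Y.P, ∃ Q : (l : Y.L) → Set (Mv Y.sz l),
    (∀ l, Q l ∈ Y.FF l) ∧ ∀ e : (l : Y.L) → Mv Y.sz l,
      Set.InjOn (fun l => (e l).1) {l | l ∈ y.lv} → (∀ l ∈ y.lv, e l ∈ Q l) →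
        Y.Agree (K : Set Y.P) y (y.map fun l => (e l).1) e
  /-- the main terms have no repeated labels -/
  nodup : ∀ j, (Y.t j).lv.Nodup
  /-- different main terms have different labels -/
  disj : ∀ j k, j ≠ k → ∀ l ∈ (Y.t j).lv, l ∉ (Y.t k).lv
  /-- recognition and non splitting -/
  recg : ∀ (ι : Type) (W : Ultrafilter ι) (N : ι → Tm Y.L) (pN : ι → Finset Y.P),
    (∀ᶠ i in (W : Filter ι), (N i).lv.Nodup) →
    (∃ᶠ j in (atTop : Filter ℕ), ∀ᶠ i in (W : Filter ι),
      Y.Emb (Y.t j) (Y.pn j) (N i) (pN i)) →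
    ∀ y : Tm Y.L, y.lv.Nodup → ∀ (K : Finset Y.P) (Q : (l : Y.L) → Set (Mv Y.sz l)),
      (∀ l, Q l ∈ Y.FF l) → ∀ᶠ i in (W : Filter ι), K ⊆ pN i ∧ Y.Le Q (K : Set Y.P) y (N i)

/-- the term `y` (with the pins `K`) has the structure of `A` -/
def Rep (A : FS ar) (y : Tm Y.L) (K : Set Y.P) : Prop :=
  ∃ α : Fin A.1 → Y.P ⊕ Pt Y.sz, Function.Injective α ∧ Set.range α = pts Y.sz y K ∧
    pull α (Y.S y) = A.2

end SYS

end Pool.Agent.Lib.MP_4fb322_lc_q
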