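import Mathlib
import Pool.Agent.Lib.MP_4fb322_lc_q.Base

/-!
# Leaf labelled ordered binary trees (definitions and statement of the tree lemma)
-/

set_option autoImplicit false

namespace Pool.Agent.Lib.MP_4fb322_lc_q

namespace Tm

variable {α β : Type}

/-- `TEmb R s t`: the leaves of `s` can be mapped injectively to leaves of `t`, every leaf `a` to a
leaf `b` with `R a b`, such that the tree `s` is the tree induced by `t` on the image. -/
inductive TEmb (R : α → β → Prop) : Tm α → Tm β → Prop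
  | leaf {a : α} {b : β} : R a b → TEmb R (Tm.leaf a) (Tm.leaf b)
  | left {s : Tm α} {t t' : Tm β} : TEmb R s t → TEmb R s (Tm.node t t')
  | right {s : Tm α} {t t' : Tm β} : TEmb R s t' → TEmb R s (Tm.node t t')
  | node {s s' : Tm α} {t t' : Tm β} : TEmb R s t → TEmb R s' t' → TEmb R (Tm.node s s') (Tm.node t t')

end Tm

open Tm

/-- Names of the leaves of `A J`: `inl l` = special leaf number `l`, `inr (j, b)` = leaf `b` of
`t j`. -/
abbrev Nm (β : Type) := ℕ ⊕ (ℕ × β)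

/-- The leaf `b` of `t j` has the name `n` in `A J` (if `j ∈ J`). -/
def NmOf {β : Type} (q : ℕ) (e : ℕ → β) (j : ℕ) (b : β) (n : Nm β) : Prop :=
  (∃ l, l < q ∧ n = Sum.inl l ∧ e l = b) ∨ n = Sum.inr (j, b)

/-- The name `n` has the colour of `b`; `c l` is the colour of the special leaf `l`. -/
def NmCol {β Γ : Type} (π : β → Γ) (c : ℕ → Γ) (n : Nm β) (b : β) : Prop :=
  match n with
  | Sum.inl l => c l = π b
  | Sum.inr (_, a) => π a = π b

/-- **LEMMA TREE** (statement). -/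
def TreeLemma : Prop :=
  ∀ (β : Type) (Γ : Type) [Finite Γ] (π : β → Γ) (U : Ultrafilter ℕ) (t : ℕ → Tm β),
    ∃ (q : ℕ) (e : ℕ → ℕ → β) (c : ℕ → Γ) (rest : ℕ → List β) (Ω : Set ℕ)
      (A : List ℕ → Tm (Nm β)), Ω ∈ U ∧
      (∀ j ∈ Ω, (lv (t j)).Perm ((List.range q).map (e j) ++ rest j)) ∧
      (∀ j ∈ Ω, ∀ l < q, π (e j l) = c l) ∧
      (∀ J : List ℕ, J ≠ [] → (∀ j ∈ J, j ∈ Ω) →
        (lv (A J)).Perm ((List.range q).map Sum.inl ++
          J.flatMap (fun j => (rest j).map (fun b => Sum.inr (j, b))))) ∧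
      (∀ J : List ℕ, J ≠ [] → (∀ j ∈ J, j ∈ Ω) → ∀ j ∈ J, TEmb (NmOf q (e j) j) (t j) (A J)) ∧
      (∀ J : List ℕ, J ≠ [] → (∀ j ∈ J, j ∈ Ω) → ∀ᶠ m in U, TEmb (NmCol π c) (A J) (t m))

end Pool.Agent.Lib.MP_4fb322_lc_q
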