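import Pool.Agent.Lib.MP_4fb322_lc_q.TreeDefs

/-!
# Basic facts on leaf labelled ordered binary trees and their embeddings
-/

set_option autoImplicit false

namespace Pool.Agent.Lib.MP_4fb322_lc_q.Tm

variable {α β γ δ : Type}

theorem lv_ne_nil (t : Tm α) : lv t ≠ [] := by
  induction t with
  | leaf a => simp [lv]
  | node s t ihs iht => simp [lv, ihs]

theorem lv_map (f : α → β) (t : Tm α) : lv (map f t) = (lv t).map f := by
  induction t with
  | leaf a => rfl
  | node s t ihs iht => simp [lv, map, ihs, iht]

theorem lv_subst (f : α → Tm β) (t : Tm α) : lv (Tm.subst f t) = (lv t).flatMap (fun a => lv (f a)) := by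
  induction t with
  | leaf a => simp [lv, Tm.subst]
  | node s t ihs iht => simp [lv, Tm.subst, ihs, iht]

theorem map_congr {f g : α → β} {t : Tm α} (h : ∀ a ∈ lv t, f a = g a) : map f t = map g t := by
  induction t with
  | leaf a => simp [map, h a (by simp [lv])]
  | node s t ihs iht =>
    simp only [map]
    rw [ihs (fun a ha => h a (by simp [lv, ha])), iht (fun a ha => h a (by simp [lv, ha]))]

theorem map_map (f : α → β) (g : β → γ) (t : Tm α) : map g (map f t) = map (fun a => g (f a)) t := by
  induction t with
  | leaf a => rfl
  | node s t ihs iht => simp [map, ihs, iht]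

theorem map_id' (t : Tm α) : map (fun a => a) t = t := by
  induction t with
  | leaf a => rfl
  | node s t ihs iht => simp [map, ihs, iht]

theorem subst_leaf (f : α → β) (t : Tm α) : Tm.subst (fun a => leaf (f a)) t = map f t := by
  induction t with
  | leaf a => rfl
  | node s t ihs iht => simp [map, Tm.subst, ihs, iht]

theorem subst_congr {f g : α → Tm β} {t : Tm α} (h : ∀ a ∈ lv t, f a = g a) :
    Tm.subst f t = Tm.subst g t := by
  induction t with
  | leaf a => simp [Tm.subst, h a (by simp [lv])]
  | node s t ihs iht =>
    simp only [Tm.subst]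
    rw [ihs (fun a ha => h a (by simp [lv, ha])), iht (fun a ha => h a (by simp [lv, ha]))]

theorem subst_map (f : α → β) (g : β → Tm γ) (t : Tm α) :
    Tm.subst g (map f t) = Tm.subst (fun a => g (f a)) t := by
  induction t with
  | leaf a => rfl
  | node s t ihs iht => simp [map, Tm.subst, ihs, iht]

namespace TEmb

variable {R : α → β → Prop} {S : β → γ → Prop}

theorem mono {R' : α → β → Prop} {s : Tm α} {t : Tm β} (h : TEmb R s t)
    (hR : ∀ a ∈ lv s, ∀ b ∈ lv t, R a b → R' a b) : TEmb R' s t := by
  induction h with
  | leaf h => exact .leaf (hR _ (by simp [lv]) _ (by simp [lv]) h)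
  | left h ih => exact .left (ih (fun a ha b hb => hR a ha b (by simp [lv, hb])))
  | right h ih => exact .right (ih (fun a ha b hb => hR a ha b (by simp [lv, hb])))
  | node h h' ih ih' =>
    exact .node (ih (fun a ha b hb => hR a (by simp [lv, ha]) b (by simp [lv, hb])))
      (ih' (fun a ha b hb => hR a (by simp [lv, ha]) b (by simp [lv, hb])))

theorem mono' {R' : α → β → Prop} {s : Tm α} {t : Tm β} (h : TEmb R s t)
    (hR : ∀ a b, R a b → R' a b) : TEmb R' s t :=
  h.mono (fun a _ b _ => hR a b)

theorem refl' {R : α → α → Prop} {t : Tm α} (h : ∀ a ∈ lv t, R a a) : TEmb R t t := by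
  induction t with
  | leaf a => exact .leaf (h a (by simp [lv]))
  | node s t ihs iht =>
    exact .node (ihs (fun a ha => h a (by simp [lv, ha]))) (iht (fun a ha => h a (by simp [lv, ha])))

theorem trans {s : Tm α} {t : Tm β} {u : Tm γ} (h : TEmb R s t) (h' : TEmb S t u) :
    TEmb (fun a c => ∃ b, R a b ∧ S b c) s u := by
  induction h' generalizing s with
  | leaf h' =>
    cases h with
    | leaf h => exact .leaf ⟨_, h, h'⟩
  | left _ ih => exact .left (ih h)
  | right _ ih => exact .right (ih h)
  | node _ _ ih ih' =>
    cases h with
    | left h => exact .left (ih h)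
    | right h => exact .right (ih' h)
    | node h1 h2 => exact .node (ih h1) (ih' h2)

theorem map_left {f : δ → α} {s : Tm δ} {t : Tm β} :
    TEmb R (map f s) t ↔ TEmb (fun a b => R (f a) b) s t := by
  constructor
  · intro h
    generalize hs : map f s = s' at h
    induction h generalizing s with
    | leaf h =>
      cases s with
      | leaf a => simp only [map, leaf.injEq] at hs; subst hs; exact .leaf h
      | node _ _ => simp [map] at hs
    | left _ ih => exact .left (ih hs)
    | right _ ih => exact .right (ih hs)
    | node _ _ ih ih' =>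
      cases s with
      | leaf a => simp [map] at hs
      | node s1 s2 =>
        simp only [map, node.injEq] at hs
        exact .node (ih hs.1) (ih' hs.2)
  · intro h
    induction h with
    | leaf h => exact .leaf h
    | left _ ih => exact .left ih
    | right _ ih => exact .right ih
    | node _ _ ih ih' => exact .node ih ih'

theorem map_right {f : δ → β} {s : Tm α} {t : Tm δ} :
    TEmb R s (map f t) ↔ TEmb (fun a b => R a (f b)) s t := by
  constructor
  · intro h
    generalize ht : map f t = t' at h
    induction h generalizing t with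
    | leaf h =>
      cases t with
      | leaf a => simp only [map, leaf.injEq] at ht; subst ht; exact .leaf h
      | node _ _ => simp [map] at ht
    | left _ ih =>
      cases t with
      | leaf a => simp [map] at ht
      | node s1 s2 =>
        simp only [map, node.injEq] at ht
        exact .left (ih ht.1)
    | right _ ih =>
      cases t with
      | leaf a => simp [map] at ht
      | node s1 s2 =>
        simp only [map, node.injEq] at ht
        exact .right (ih ht.2)
    | node _ _ ih ih' =>
      cases t with
      | leaf a => simp [map] at ht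
      | node s1 s2 =>
        simp only [map, node.injEq] at ht
        exact .node (ih ht.1) (ih' ht.2)
  · intro h
    induction h with
    | leaf h => exact .leaf h
    | left _ ih => exact .left ih
    | right _ ih => exact .right ih
    | node _ _ ih ih' => exact .node ih ih'

/-- Substitution. -/
theorem subst {s : Tm α} {t : Tm β} {T : γ → δ → Prop} {f : α → Tm γ} {g : β → Tm δ}
    (h : TEmb R s t) (hfg : ∀ a ∈ lv s, ∀ b ∈ lv t, R a b → TEmb T (f a) (g b)) :
    TEmb T (s.subst f) (t.subst g) := by
  induction h with
  | leaf h => exact hfg _ (by simp [lv]) _ (by simp [lv]) h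
  | left h ih => exact .left (ih (fun a ha b hb => hfg a ha b (by simp [lv, hb])))
  | right h ih => exact .right (ih (fun a ha b hb => hfg a ha b (by simp [lv, hb])))
  | node h h' ih ih' =>
    exact .node (ih (fun a ha b hb => hfg a (by simp [lv, ha]) b (by simp [lv, hb])))
      (ih' (fun a ha b hb => hfg a (by simp [lv, ha]) b (by simp [lv, hb])))

/-- A leaf `b` of `t` as a subtree. -/
theorem leaf_mem {a : α} {b : β} {t : Tm β} (hb : b ∈ lv t) (h : R a b) : TEmb R (Tm.leaf a) t := by
  induction t with
  | leaf c => simp only [lv, List.mem_singleton] at hb; subst hb; exact .leaf h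
  | node t1 t2 ih1 ih2 =>
    simp only [lv, List.mem_append] at hb
    rcases hb with hb | hb
    · exact .left (ih1 hb)
    · exact .right (ih2 hb)

theorem sublistForall₂ {s : Tm α} {t : Tm β} (h : TEmb R s t) :
    List.SublistForall₂ R (lv s) (lv t) := by
  induction h with
  | leaf h => exact .cons h .nil
  | left h ih =>
    simp only [lv]
    rw [List.sublistForall₂_iff] at ih ⊢
    obtain ⟨l, hl, hsub⟩ := ih
    exact ⟨l, hl, hsub.trans (List.sublist_append_left _ _)⟩
  | right h ih =>
    simp only [lv]
    rw [List.sublistForall₂_iff] at ih ⊢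
    obtain ⟨l, hl, hsub⟩ := ih
    exact ⟨l, hl, hsub.trans (List.sublist_append_right _ _)⟩
  | node h h' ih ih' =>
    simp only [lv]
    rw [List.sublistForall₂_iff] at ih ih' ⊢
    obtain ⟨l, hl, hsub⟩ := ih
    obtain ⟨l', hl', hsub'⟩ := ih'
    exact ⟨l ++ l', List.rel_append hl hl', hsub.append hsub'⟩

theorem sublist {s t : Tm α} (h : TEmb Eq s t) : (lv s).Sublist (lv t) := by
  have := h.sublistForall₂
  rw [List.sublistForall₂_iff] at this
  obtain ⟨l, hl, hsub⟩ := this
  rw [List.forall₂_eq_eq_eq] at hl
  exact hl ▸ hsub

/-- From a relational embedding to a map on the leaves. -/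
theorem exists_map {s : Tm α} {t : Tm β} (h : TEmb R s t) (hs : (lv s).Nodup) :
    ∃ f : α → β, (∀ a ∈ lv s, R a (f a)) ∧ TEmb Eq (s.map f) t := by
  classical
  induction h with
  | @leaf a b h => exact ⟨fun _ => b, by simpa [lv] using h, .leaf rfl⟩
  | left h ih =>
    obtain ⟨f, hf, hf'⟩ := ih hs
    exact ⟨f, hf, .left hf'⟩
  | right h ih =>
    obtain ⟨f, hf, hf'⟩ := ih hs
    exact ⟨f, hf, .right hf'⟩
  | @node s s' t t' h h' ih ih' =>
    simp only [lv] at hs
    rw [List.nodup_append] at hs
    obtain ⟨f, hf, hf'⟩ := ih hs.1
    obtain ⟨g, hg, hg'⟩ := ih' hs.2.1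
    refine ⟨fun a => if a ∈ lv s then f a else g a, ?_, ?_⟩
    · intro a ha
      simp only [lv, List.mem_append] at ha
      by_cases h1 : a ∈ lv s
      · simp only [h1, if_true]; exact hf a h1
      · simp only [h1, if_false]; exact hg a (ha.resolve_left h1)
    · have e1 : map (fun a => if a ∈ lv s then f a else g a) s = map f s :=
        map_congr (fun a ha => by simp [ha])
      have e2 : map (fun a => if a ∈ lv s then f a else g a) s' = map g s' :=
        map_congr (fun a ha => by
          have : a ∉ lv s := fun h1 => hs.2.2 a h1 a ha rfl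
          simp [this])
      simp only [map, e1, e2]
      exact .node hf' hg'

theorem map_injOn {s : Tm α} {t : Tm β} {f : α → β} (h : TEmb Eq (s.map f) t)
    (ht : (lv t).Nodup) : ∀ a ∈ lv s, ∀ b ∈ lv s, f a = f b → a = b := by
  have h1 := h.sublist.nodup ht
  rw [lv_map] at h1
  intro a ha b hb hab
  exact List.inj_on_of_nodup_map h1 ha hb hab

theorem map_mem {s : Tm α} {t : Tm β} {f : α → β} (h : TEmb Eq (s.map f) t) :
    ∀ a ∈ lv s, f a ∈ lv t := by
  intro a ha
  apply h.sublist.subset
  rw [lv_map]
  exact List.mem_map_of_mem ha

end TEmb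

/-- `Sub` is the embedding with equality of the labels. -/
theorem sub_iff {s t : Tm α} : Sub s t ↔ TEmb Eq s t := by
  constructor
  · intro h
    induction h with
    | leaf a => exact .leaf rfl
    | left _ ih => exact .left ih
    | right _ ih => exact .right ih
    | node _ _ ih ih' => exact .node ih ih'
  · intro h
    induction h with
    | leaf h => subst h; exact .leaf _
    | left _ ih => exact .left ih
    | right _ ih => exact .right ih
    | node _ _ ih ih' => exact .node ih ih'

end Pool.Agent.Lib.MP_4fb322_lc_q.Tm
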