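import Mathlib
import Pool.Agent.Lib.MP_4fb322_lc_q.Base

set_option autoImplicit false

/-!
# The three theorems A (END GAME), B (POSITIONS), C (NIP) and the reductions R: statements
-/

namespace Pool.Agent.Lib.MP_4fb322_lc_q

open Set Filter

/-- THEOREM A (END GAME, captain helper37): in a system every term embeds by fine moves into most main terms. -/
def ThmA : Prop :=
  ∀ (I : Type) (ar : I → ℕ) (Y : SYS ar), Y.Ax → ∀ y : Tm Y.L, y.lv.Nodup →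
    ∀ (K : Finset Y.P) (Q : (l : Y.L) → Set (Mv Y.sz l)), (∀ l, Q l ∈ Y.FF l) →
      ∀ᶠ j in (hyperfilter ℕ : Filter ℕ), K ⊆ Y.pn j ∧ Y.Le Q (K : Set Y.P) y (Y.t j)

/-- THEOREM B (POSITIONS and RECOGNITION, captain helper71). -/
def ThmB : Prop :=
  ∀ (I : Type) (ar : I → ℕ) (V : Type) [Countable V] [Nonempty V] (M : St ar V), HasEq M → FinTy M → Nip M →
    ∀ (a : ℕ → FS ar) (z : FS ar), (∀ j, RealI M (a j)) → RealI M z → MIN M z a →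
      ∃ (Y : SYS ar) (ta : ℕ → ℕ → Tm Y.L) (tz : ℕ → Tm Y.L) (pa : ℕ → Finset Y.P)
        (pz : Finset Y.P), Y.Ax ∧
        (∀ n, Y.t n = Tm.node (ta n 0) (tz n)) ∧
        (∀ n p, p ∈ Y.pn n ↔ p ∈ pa n ∨ p ∈ pz) ∧
        (∀ n c, (ta n c).lv.Nodup) ∧
        (∀ n c c', c ≠ c' → ∀ l ∈ (ta n c).lv, l ∉ (ta n c').lv) ∧
        (∀ n c, Y.Rep (a n) (ta n c) (pa n : Set Y.P)) ∧
        (∀ n, Y.Rep z (tz n) (pz : Set Y.P))

/-- CORE THEOREM = A + B. -/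
def Core : Prop :=
  ∀ (I : Type) (ar : I → ℕ) (V : Type) [Countable V] (M : St ar V), HasEq M → FinTy M → Nip M →
    ∀ (a : ℕ → FS ar) (z : FS ar), (∀ j, RealI M (a j)) → RealI M z → MIN M z a →
      ∃ i j, i ≠ j ∧ FLe (a i) (a j)

/-- a sequence of blocks `N j` in a structure whose finite parts are realised in `M`, such that the finite
structure `B j` lives in block `j` and does not live in the union of the other blocks -/
def BlockFam {I : Type} {ar : I → ℕ} {V : Type} (M : St ar V) : Prop :=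
  ∃ (W : Type) (S : St ar W) (N : ℕ → Set W) (B : ℕ → FS ar),
    (∀ (n : ℕ) (f : Fin n → W), Real M ⟨n, pull f S⟩) ∧
    ∀ j, (∃ f : Fin (B j).1 → W, (∀ x, f x ∈ N j) ∧ pull f S = (B j).2) ∧
      ¬ ∃ f : Fin (B j).1 → W, (∀ x, ∃ i, i ≠ j ∧ f x ∈ N i) ∧ pull f S = (B j).2

/-- THEOREM C (NIP for tuples, captain helper7). -/
def ThmC : Prop :=
  ∀ (I : Type) (ar : I → ℕ) (V : Type) (M : St ar V), FinTy M → ¬ Nip M → BlockFam M

/-! ## Reductions (the definitions of the frozen statement) -/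

section Red

variable {I : Type} {ar : I → ℕ}

/-- finite structures of the frozen statement -/
abbrev Str (ar : I → ℕ) : Type := Σ n : ℕ, (i : I) → Set (Fin (ar i) → Fin n)

def Embd (A B : Str ar) : Prop :=
  ∃ f : Fin A.1 → Fin B.1, Function.Injective f ∧
    ∀ (i : I) (t : Fin (ar i) → Fin A.1), t ∈ A.2 i ↔ f ∘ t ∈ B.2 i

def IsAge (𝒜 : Set (Str ar)) : Prop :=
  𝒜.Nonempty ∧ (∀ A B : Str ar, B ∈ 𝒜 → Embd A B → A ∈ 𝒜) ∧
    ∀ A ∈ 𝒜, ∀ B ∈ 𝒜, ∃ C ∈ 𝒜, Embd A C ∧ Embd B C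

def NoAntichain (𝒜 : Set (Str ar)) : Prop :=
  ¬ ∃ s : ℕ → Str ar, (∀ k, s k ∈ 𝒜) ∧ ∀ m k, m ≠ k → ¬ Embd (s m) (s k)

def SubagesWF (𝒜 : Set (Str ar)) : Prop :=
  ¬ ∃ D : ℕ → Set (Str ar), (∀ k, D k ⊆ 𝒜 ∧ IsAge (D k)) ∧ ∀ k, D (k + 1) ⊂ D k

def SubagesCtbl (𝒜 : Set (Str ar)) : Prop := {ℬ : Set (Str ar) | ℬ ⊆ 𝒜 ∧ IsAge ℬ}.Countable

/-- no independent family of ages inside `𝒜` -/
def QF (𝒜 : Set (Str ar)) : Prop :=
  ¬ ∃ (B : Set ℕ → Set (Str ar)) (X : ℕ → Str ar), (∀ K, IsAge (B K) ∧ B K ⊆ 𝒜) ∧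
    (∀ K K', K ⊆ K' → B K ⊆ B K') ∧ ∀ K k, X k ∈ B K ↔ k ∈ K

/-- finitely many structures of each size -/
def FinSz (𝒜 : Set (Str ar)) : Prop := ∀ n : ℕ, {A ∈ 𝒜 | A.1 = n}.Finite

/-- minimality relative to `z` and the sequence `a` -/
def MinAge (𝒞 : Set (Str ar)) (z : Str ar) (a : ℕ → Str ar) : Prop :=
  ∀ 𝒞' ⊆ 𝒞, IsAge 𝒞' → z ∈ 𝒞' → (∃ᶠ j in (atTop : Filter ℕ), a j ∈ 𝒞') → 𝒞' = 𝒞

/-- the finite structures embedding into `M` -/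
def ageOf {V : Type} (M : St ar V) : Set (Str ar) :=
  {A | ∃ f : Fin A.1 → V, Function.Injective f ∧ pull f M = A.2}

/-- the structure with equality as a relation -/
def liftE (A : Str ar) : FS (arE ar) := ⟨A.1, stE A.2⟩

end Red

/-- R1 -/
def R1 : Prop := ∀ (I : Type) (ar : I → ℕ) (𝒜 : Set (Str ar)),
  (SubagesWF 𝒜 → QF 𝒜) ∧ (SubagesCtbl 𝒜 → QF 𝒜)
/-- R2: finitely many structures of each size -/
def R2 : Prop := ∀ (I : Type) (ar : I → ℕ) (𝒜 : Set (Str ar)), IsAge 𝒜 → QF 𝒜 → FinSz 𝒜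
/-- R3: the minimal age -/
def R3 : Prop := ∀ (I : Type) (ar : I → ℕ) (𝒜 : Set (Str ar)), IsAge 𝒜 → FinSz 𝒜 →
  (SubagesWF 𝒜 ∨ SubagesCtbl 𝒜) → ¬ NoAntichain 𝒜 →
    ∃ (𝒞 : Set (Str ar)) (z : Str ar) (a : ℕ → Str ar), 𝒞 ⊆ 𝒜 ∧ IsAge 𝒞 ∧ z ∈ 𝒞 ∧
      (∀ j, a j ∈ 𝒞) ∧ (∀ m k, m ≠ k → ¬ Embd (a m) (a k)) ∧ MinAge 𝒞 z a
/-- R4: a countable structure with a given age -/
def R4 : Prop := ∀ (I : Type) (ar : I → ℕ) (𝒞 : Set (Str ar)), IsAge 𝒞 → FinSz 𝒞 →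
  ∃ (V : Type) (_ : Countable V) (M : St ar V), ageOf M = 𝒞
/-- R5: minimality in the signature with equality -/
def R5 : Prop := ∀ (I : Type) (ar : I → ℕ) (V : Type) (M : St ar V) (z : Str ar) (a : ℕ → Str ar),
  FinSz (ageOf M) → IsAge (ageOf M) → z ∈ ageOf M → (∀ j, a j ∈ ageOf M) →
  MinAge (ageOf M) z a → MIN (stE M) (liftE z) (fun j => liftE (a j))
/-- R6: finitely many types -/
def R6 : Prop := ∀ (I : Type) (ar : I → ℕ) (V : Type) (M : St ar V),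
  FinSz (ageOf M) → FinTy (stE M)
/-- R7: a block family gives an independent family of ages -/
def R7 : Prop := ∀ (I : Type) (ar : I → ℕ) (V : Type) (M : St ar V),
  BlockFam (stE M) → ¬ QF (ageOf M)
/-- R8: the easy implications -/
def R8 : Prop := ∀ (I : Type) (ar : I → ℕ) (𝒜 : Set (Str ar)), IsAge 𝒜 → NoAntichain 𝒜 →
  SubagesWF 𝒜 ∧ SubagesCtbl 𝒜

end Pool.Agent.Lib.MP_4fb322_lc_q
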