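import Mathlib
import Pool.Agent.Lib.MP_4fb322_lc_q.Iface

set_option autoImplicit false

/-!
# CORE + C + R => the frozen statement
-/

namespace Pool.Agent.Lib.MP_4fb322_lc_q

open Set Filter

theorem QF.mono {I : Type} {ar : I → ℕ} {𝒜 𝒞 : Set (Str ar)} (h : QF 𝒜) (hs : 𝒞 ⊆ 𝒜) : QF 𝒞 := by
  rintro ⟨B, X, h1, h2, h3⟩
  exact h ⟨B, X, fun K => ⟨(h1 K).1, (h1 K).2.trans hs⟩, h2, h3⟩

theorem pull_stE {I : Type} {ar : I → ℕ} {X V : Type} (f : X → V) (hf : Function.Injective f)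
    (M : St ar V) : pull f (stE M) = stE (pull f M) := by
  funext i
  cases i with
  | none =>
    ext t
    exact hf.eq_iff
  | some i => rfl

theorem embd_of_FLe {I : Type} {ar : I → ℕ} {A B : Str ar} (h : FLe (liftE A) (liftE B)) :
    Embd A B := by
  obtain ⟨f, hf⟩ := h
  refine ⟨f, ?_, ?_⟩
  · intro x y hxy
    have h0 : (![x, y] : Fin 2 → Fin A.1) ∈ (pull f (liftE B).2 : St (arE ar) (Fin A.1)) none := hxy
    have h1 : (![x, y] : Fin 2 → Fin A.1) ∈ (liftE A).2 none := by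
      have h2 := congrFun hf none
      exact h2 ▸ h0
    exact h1
  · intro i t
    have h2 : pull f (liftE B).2 (some i) = (liftE A).2 (some i) := congrFun hf (some i)
    have h3 : t ∈ (liftE A).2 (some i) ↔ t ∈ pull f (liftE B).2 (some i) := by rw [h2]
    exact h3

/-- one of the two structural conditions and an infinite antichain are contradictory -/
theorem noAntichain_of (hCore : Core) (hC : ThmC) (h1 : R1) (h2 : R2) (h3 : R3) (h4 : R4) (h5 : R5)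
    (h6 : R6) (h7 : R7) {I : Type} {ar : I → ℕ} {𝒜 : Set (Str ar)} (hA : IsAge 𝒜)
    (h : SubagesWF 𝒜 ∨ SubagesCtbl 𝒜) : NoAntichain 𝒜 := by
  by_contra hno
  have hQ : QF 𝒜 := h.elim (h1 I ar 𝒜).1 (h1 I ar 𝒜).2
  have hF : FinSz 𝒜 := h2 I ar 𝒜 hA hQ
  obtain ⟨𝒞, z, a, hs, hc, hz, ha, hanti, hmin⟩ := h3 I ar 𝒜 hA hF h hno
  have hFC : FinSz 𝒞 := fun n => (hF n).subset fun A hA => ⟨hs hA.1, hA.2⟩
  obtain ⟨V, hV, M, rfl⟩ := h4 I ar 𝒞 hc hFC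
  have hFT : FinTy (stE M) := h6 I ar V M hFC
  have hNip : Nip (stE M) := by
    by_contra hn
    exact h7 I ar V M (hC _ _ V (stE M) hFT hn) (hQ.mono hs)
  have hE : HasEq (stE M) :=
    ⟨none, (0 : Fin 2), (1 : Fin 2), (by decide : (0 : Fin 2) ≠ 1), fun t => Iff.rfl⟩
  have hreal : ∀ A : Str ar, A ∈ ageOf M → RealI (stE M) (liftE A) := by
    rintro A ⟨f, hf, hfA⟩
    refine ⟨f, hf, ?_⟩
    show pull f (stE M) = stE A.2
    rw [pull_stE f hf M, hfA]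
  obtain ⟨i, j, hij, hle⟩ := hCore (Option I) (arE ar) V (stE M) hE hFT hNip
    (fun j => liftE (a j)) (liftE z) (fun j => hreal _ (ha j)) (hreal _ hz)
    (h5 I ar V M z a hFC hc hz ha hmin)
  exact hanti i j hij (embd_of_FLe hle)

/-- the frozen statement from the three theorems and the reductions -/
theorem final_of (hCore : Core) (hC : ThmC) (h1 : R1) (h2 : R2) (h3 : R3) (h4 : R4) (h5 : R5)
    (h6 : R6) (h7 : R7) (h8 : R8) (I : Type) (ar : I → ℕ) (𝒜 : Set (Str ar)) (hA : IsAge 𝒜) :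
    (NoAntichain 𝒜 ↔ SubagesWF 𝒜) ∧ (SubagesWF 𝒜 ↔ SubagesCtbl 𝒜) := by
  have key := noAntichain_of hCore hC h1 h2 h3 h4 h5 h6 h7 hA
  refine ⟨⟨fun h => (h8 I ar 𝒜 hA h).1, fun h => key (Or.inl h)⟩,
    ⟨fun h => (h8 I ar 𝒜 hA (key (Or.inl h))).2, fun h => (h8 I ar 𝒜 hA (key (Or.inr h))).1⟩⟩

/-- check: the unfolded text of the frozen statement -/
theorem frozen_check (hCore : Core) (hC : ThmC) (h1 : R1) (h2 : R2) (h3 : R3) (h4 : R4) (h5 : R5)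
    (h6 : R6) (h7 : R7) (h8 : R8) :
  ∀ (I : Type) (ar : I → ℕ) (𝒜 : Set (Σ n : ℕ, (i : I) → Set (Fin (ar i) → Fin n))),
    (𝒜.Nonempty ∧
      (∀ A B : (Σ n : ℕ, (i : I) → Set (Fin (ar i) → Fin n)), B ∈ 𝒜 →
        (∃ f : Fin A.1 → Fin B.1, Function.Injective f ∧
          ∀ (i : I) (t : Fin (ar i) → Fin A.1), t ∈ A.2 i ↔ f ∘ t ∈ B.2 i) → A ∈ 𝒜) ∧
      (∀ A ∈ 𝒜, ∀ B ∈ 𝒜, ∃ C ∈ 𝒜,
        (∃ f : Fin A.1 → Fin C.1, Function.Injective f ∧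
          ∀ (i : I) (t : Fin (ar i) → Fin A.1), t ∈ A.2 i ↔ f ∘ t ∈ C.2 i) ∧
        (∃ g : Fin B.1 → Fin C.1, Function.Injective g ∧
          ∀ (i : I) (t : Fin (ar i) → Fin B.1), t ∈ B.2 i ↔ g ∘ t ∈ C.2 i))) →
    ((¬ ∃ s : ℕ → (Σ n : ℕ, (i : I) → Set (Fin (ar i) → Fin n)),
        (∀ k, s k ∈ 𝒜) ∧
        ∀ m k, m ≠ k → ¬ ∃ f : Fin (s m).1 → Fin (s k).1, Function.Injective f ∧
          ∀ (i : I) (t : Fin (ar i) → Fin (s m).1), t ∈ (s m).2 i ↔ f ∘ t ∈ (s k).2 i)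
      ↔
      (¬ ∃ D : ℕ → Set (Σ n : ℕ, (i : I) → Set (Fin (ar i) → Fin n)),
        (∀ k, D k ⊆ 𝒜 ∧ (D k).Nonempty ∧
          (∀ A B : (Σ n : ℕ, (i : I) → Set (Fin (ar i) → Fin n)), B ∈ D k →
            (∃ f : Fin A.1 → Fin B.1, Function.Injective f ∧
              ∀ (i : I) (t : Fin (ar i) → Fin A.1), t ∈ A.2 i ↔ f ∘ t ∈ B.2 i) → A ∈ D k) ∧
          (∀ A ∈ D k, ∀ B ∈ D k, ∃ C ∈ D k,
            (∃ f : Fin A.1 → Fin C.1, Function.Injective f ∧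
              ∀ (i : I) (t : Fin (ar i) → Fin A.1), t ∈ A.2 i ↔ f ∘ t ∈ C.2 i) ∧
            (∃ g : Fin B.1 → Fin C.1, Function.Injective g ∧
              ∀ (i : I) (t : Fin (ar i) → Fin B.1), t ∈ B.2 i ↔ g ∘ t ∈ C.2 i))) ∧
        ∀ k, D (k + 1) ⊂ D k)) ∧
    ((¬ ∃ D : ℕ → Set (Σ n : ℕ, (i : I) → Set (Fin (ar i) → Fin n)),
        (∀ k, D k ⊆ 𝒜 ∧ (D k).Nonempty ∧
          (∀ A B : (Σ n : ℕ, (i : I) → Set (Fin (ar i) → Fin n)), B ∈ D k →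
            (∃ f : Fin A.1 → Fin B.1, Function.Injective f ∧
              ∀ (i : I) (t : Fin (ar i) → Fin A.1), t ∈ A.2 i ↔ f ∘ t ∈ B.2 i) → A ∈ D k) ∧
          (∀ A ∈ D k, ∀ B ∈ D k, ∃ C ∈ D k,
            (∃ f : Fin A.1 → Fin C.1, Function.Injective f ∧
              ∀ (i : I) (t : Fin (ar i) → Fin A.1), t ∈ A.2 i ↔ f ∘ t ∈ C.2 i) ∧
            (∃ g : Fin B.1 → Fin C.1, Function.Injective g ∧
              ∀ (i : I) (t : Fin (ar i) → Fin B.1), t ∈ B.2 i ↔ g ∘ t ∈ C.2 i))) ∧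
        ∀ k, D (k + 1) ⊂ D k)
      ↔
      {ℬ : Set (Σ n : ℕ, (i : I) → Set (Fin (ar i) → Fin n)) |
        ℬ ⊆ 𝒜 ∧ ℬ.Nonempty ∧
          (∀ A B : (Σ n : ℕ, (i : I) → Set (Fin (ar i) → Fin n)), B ∈ ℬ →
            (∃ f : Fin A.1 → Fin B.1, Function.Injective f ∧
              ∀ (i : I) (t : Fin (ar i) → Fin A.1), t ∈ A.2 i ↔ f ∘ t ∈ B.2 i) → A ∈ ℬ) ∧
          (∀ A ∈ ℬ, ∀ B ∈ ℬ, ∃ C ∈ ℬ,
            (∃ f : Fin A.1 → Fin C.1, Function.Injective f ∧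
              ∀ (i : I) (t : Fin (ar i) → Fin A.1), t ∈ A.2 i ↔ f ∘ t ∈ C.2 i) ∧
            (∃ g : Fin B.1 → Fin C.1, Function.Injective g ∧
              ∀ (i : I) (t : Fin (ar i) → Fin B.1), t ∈ B.2 i ↔ g ∘ t ∈ C.2 i))}.Countable) :=
  fun I ar 𝒜 hA => final_of hCore hC h1 h2 h3 h4 h5 h6 h7 h8 I ar 𝒜 hA

end Pool.Agent.Lib.MP_4fb322_lc_q
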