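import Mathlib
import Pool.Agent.Lib.MP_4fb322_lc_q.Iface

set_option autoImplicit false

/-!
# R3: the minimal age relative to a finite structure
-/

namespace Pool.Agent.Lib.MP_4fb322_lc_q

open Set Filter

section

variable {I : Type} {ar : I → ℕ}

theorem Embd.refl' (A : Str ar) : Embd A A := ⟨fun x => x, fun _ _ h => h, fun _ _ => Iff.rfl⟩

theorem Embd.trans' {A B C : Str ar} (h : Embd A B) (h' : Embd B C) : Embd A C := by
  obtain ⟨f, hf, hf'⟩ := h
  obtain ⟨g, hg, hg'⟩ := h'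
  exact ⟨g ∘ f, hg.comp hf, fun i t => (hf' i t).trans (hg' i (f ∘ t))⟩

/-- the ages inside `𝒜` with an infinite antichain -/
def BadAge (𝒜 𝒞 : Set (Str ar)) : Prop := 𝒞 ⊆ 𝒜 ∧ IsAge 𝒞 ∧ ¬ NoAntichain 𝒞

/-- the perfect tree / the decreasing sequence -/
theorem exists_min_bad {𝒜 : Set (Str ar)} (hA : IsAge 𝒜) (h : SubagesWF 𝒜 ∨ SubagesCtbl 𝒜)
    (hno : ¬ NoAntichain 𝒜) :
    ∃ (𝒞 : Set (Str ar)) (z : Str ar), BadAge 𝒜 𝒞 ∧ z ∈ 𝒞 ∧
      ∀ 𝒞', 𝒞' ⊂ 𝒞 → BadAge 𝒜 𝒞' → z ∉ 𝒞' := by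
  classical
  by_contra hcon
  have H : ∀ (𝒞 : Set (Str ar)) (z : Str ar), BadAge 𝒜 𝒞 → z ∈ 𝒞 →
      ∃ 𝒞', 𝒞' ⊂ 𝒞 ∧ BadAge 𝒜 𝒞' ∧ z ∈ 𝒞' := by
    intro 𝒞 z h1 h2
    by_contra h3
    exact hcon ⟨𝒞, z, h1, h2, fun 𝒞' h4 h5 h6 => h3 ⟨𝒞', h4, h5, h6⟩⟩
  obtain ⟨z0, hz0⟩ := hA.1
  have hbadA : BadAge 𝒜 𝒜 := ⟨subset_rfl, hA, hno⟩
  rcases h with hwf | hct
  · -- a strictly decreasing sequence
    let N := {𝒞 : Set (Str ar) // BadAge 𝒜 𝒞 ∧ z0 ∈ 𝒞}
    have hs : ∀ p : N, ∃ q : N, q.1 ⊂ p.1 := by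
      intro p
      obtain ⟨𝒞', h1, h2, h3⟩ := H p.1 z0 p.2.1 p.2.2
      exact ⟨⟨𝒞', h2, h3⟩, h1⟩
    choose f hf using hs
    let D : ℕ → N := fun n => Nat.rec (⟨𝒜, hbadA, hz0⟩ : N) (fun _ p => f p) n
    exact hwf ⟨fun n => (D n).1, fun k => ⟨(D k).2.1.1, (D k).2.1.2.1⟩, fun k => hf (D k)⟩
  · -- a perfect tree
    let N := {p : Set (Str ar) × Str ar // BadAge 𝒜 p.1 ∧ p.2 ∈ p.1}
    have hs : ∀ p : N, ∃ q r : N, q.1.1 ⊆ p.1.1 ∧ Embd p.1.2 q.1.2 ∧ r.1.1 ⊆ p.1.1 ∧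
        Embd p.1.2 r.1.2 ∧ r.1.2 ∉ q.1.1 := by
      intro p
      obtain ⟨𝒞', h1, h2, h3⟩ := H p.1.1 p.1.2 p.2.1 p.2.2
      obtain ⟨X, hX, hX'⟩ := Set.exists_of_ssubset h1
      obtain ⟨Z, hZ, hZ1, hZ2⟩ := p.2.1.2.1.2.2 _ p.2.2 _ hX
      refine ⟨⟨(𝒞', p.1.2), h2, h3⟩, ⟨(p.1.1, Z), p.2.1, hZ⟩, h1.1, Embd.refl' _, subset_rfl, hZ1, ?_⟩
      intro h4
      exact hX' (h2.2.1.2.1 X Z h4 hZ2)
    choose f0 f1 hf using hs
    let D : (ℕ → Bool) → ℕ → N := fun x n =>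
      Nat.rec (⟨(𝒜, z0), hbadA, hz0⟩ : N) (fun k p => if x k then f1 p else f0 p) n
    have hDs : ∀ x k, D x (k + 1) = if x k then f1 (D x k) else f0 (D x k) := fun _ _ => rfl
    have hstep : ∀ x k, (D x (k + 1)).1.1 ⊆ (D x k).1.1 ∧ Embd (D x k).1.2 (D x (k + 1)).1.2 := by
      intro x k
      rw [hDs]
      obtain ⟨h1, h2, h3, h4, h5⟩ := hf (D x k)
      by_cases hx : x k = true
      · rw [if_pos hx]; exact ⟨h3, h4⟩
      · rw [if_neg hx]; exact ⟨h1, h2⟩
    have hmono : ∀ x k l, k ≤ l → (D x l).1.1 ⊆ (D x k).1.1 ∧ Embd (D x k).1.2 (D x l).1.2 := by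
      intro x k l hkl
      induction l, hkl using Nat.le_induction with
      | base => exact ⟨subset_rfl, Embd.refl' _⟩
      | succ l _ ih => exact ⟨(hstep x l).1.trans ih.1, ih.2.trans' (hstep x l).2⟩
    let B : (ℕ → Bool) → Set (Str ar) := fun x => {A | ∃ k, Embd A (D x k).1.2}
    have hB : ∀ x k, B x ⊆ (D x k).1.1 := by
      rintro x k A ⟨l, hl⟩
      have h1 : Embd A (D x (max k l)).1.2 := hl.trans' (hmono x l _ (le_max_right _ _)).2
      have h2 : (D x (max k l)).1.2 ∈ (D x k).1.1 :=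
        (hmono x k _ (le_max_left _ _)).1 (D x (max k l)).2.2
      exact (D x k).2.1.2.1.2.1 _ _ h2 h1
    have hBage : ∀ x, B x ∈ {ℬ : Set (Str ar) | ℬ ⊆ 𝒜 ∧ IsAge ℬ} := by
      intro x
      refine ⟨(hB x 0).trans (D x 0).2.1.1, ⟨(D x 0).1.2, 0, Embd.refl' _⟩, ?_, ?_⟩
      · rintro A C ⟨k, hk⟩ hAC
        exact ⟨k, hAC.trans' hk⟩
      · rintro A ⟨k, hk⟩ C ⟨l, hl⟩
        exact ⟨(D x (max k l)).1.2, ⟨_, Embd.refl' _⟩, hk.trans' (hmono x k _ (le_max_left _ _)).2,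
          hl.trans' (hmono x l _ (le_max_right _ _)).2⟩
    have hinj : Function.Injective B := by
      have key : ∀ x y k, (∀ j < k, x j = y j) → x k = false → y k = true → B x ≠ B y := by
        intro x y k hj hx hy
        have hD : ∀ j ≤ k, D x j = D y j := by
          intro j
          induction j with
          | zero => exact fun _ => rfl
          | succ j ih =>
            intro hjk
            rw [hDs, hDs, ih (by omega), hj j (by omega)]
        have h1 : B x ⊆ (f0 (D x k)).1.1 := by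
          have := hB x (k + 1)
          rw [hDs, if_neg (by simp [hx])] at this
          exact this
        have h2 : (f1 (D y k)).1.2 ∈ B y := by
          refine ⟨k + 1, ?_⟩
          rw [hDs, if_pos hy]
          exact Embd.refl' _
        intro hxy
        rw [← hxy] at h2
        have h3 := h1 h2
        rw [← hD k le_rfl] at h3
        exact (hf (D x k)).2.2.2.2 h3
      intro x y hxy
      by_contra hne
      have hex : ∃ k, x k ≠ y k := by
        by_contra h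
        push Not at h
        exact hne (funext h)
      have hk := Nat.find_spec hex
      have hj : ∀ j < Nat.find hex, x j = y j := fun j hj => by
        have := Nat.find_min hex hj
        simpa using this
      cases hxk : x (Nat.find hex) with
      | false =>
        have hyk : y (Nat.find hex) = true := by
          cases h : y (Nat.find hex) with
          | true => rfl
          | false => exact absurd (hxk.trans h.symm) hk
        exact key x y _ hj hxk hyk hxy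
      | true =>
        have hyk : y (Nat.find hex) = false := by
          cases h : y (Nat.find hex) with
          | false => rfl
          | true => exact absurd (hxk.trans h.symm) hk
        exact key y x _ (fun j hj' => (hj j hj').symm) hyk hxk hxy.symm
    have hc : Countable (ℕ → Bool) := by
      have h1 : (Set.range B).Countable := hct.mono (by rintro _ ⟨x, rfl⟩; exact hBage x)
      have h2 : Countable (Set.range B) := h1.to_subtype
      exact Function.Injective.countable (f := fun x => (⟨B x, x, rfl⟩ : Set.range B))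
        (fun x y hxy => hinj (congrArg Subtype.val hxy))
    obtain ⟨g, hg⟩ := exists_surjective_nat (ℕ → Bool)
    obtain ⟨n, hn⟩ := hg (fun k => !(g k k))
    have := congrFun hn n
    simp at this

theorem r3 : R3 := by
  intro I ar 𝒜 hA _ h hno
  obtain ⟨𝒞, z, hb, hz, hmin⟩ := exists_min_bad hA h hno
  have h1 : ∃ s : ℕ → Str ar, (∀ k, s k ∈ 𝒞) ∧ ∀ m k, m ≠ k → ¬ Embd (s m) (s k) := by
    by_contra hcon
    exact hb.2.2 hcon
  obtain ⟨a, ha, hanti⟩ := h1
  refine ⟨𝒞, z, a, hb.1, hb.2.1, hz, ha, hanti, ?_⟩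
  intro 𝒞' hs hage hz' hfr
  by_contra hne
  have hss : 𝒞' ⊂ 𝒞 := Set.ssubset_iff_subset_ne.2 ⟨hs, hne⟩
  refine hmin 𝒞' hss ⟨hs.trans hb.1, hage, ?_⟩ hz'
  intro hno'
  obtain ⟨φ, hφ, hφ'⟩ := Filter.extraction_of_frequently_atTop hfr
  exact hno' ⟨fun k => a (φ k), hφ', fun m k hmk => hanti _ _ (hφ.injective.ne hmk)⟩

end

end Pool.Agent.Lib.MP_4fb322_lc_q
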