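import Mathlib
import Pool.Agent.Lib.MP_4fb322_lc_q.Iface
import Pool.Agent.Lib.MP_4fb322_lc_q.R3

set_option autoImplicit false

/-!
# The direct limit of a chain of finite structures (R4), blocks give independent families of ages
-/

namespace Pool.Agent.Lib.MP_4fb322_lc_q

open Set Filter

section

variable {I : Type} {ar : I → ℕ}

theorem embd_iff_pull {A B : Str ar} :
    Embd A B ↔ ∃ f : Fin A.1 → Fin B.1, Function.Injective f ∧ pull f B.2 = A.2 := by
  constructor
  · rintro ⟨f, hf, h⟩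
    refine ⟨f, hf, ?_⟩
    funext i
    ext t
    exact (h i t).symm
  · rintro ⟨f, hf, h⟩
    refine ⟨f, hf, fun i t => ?_⟩
    rw [← h]
    rfl

open Classical in
/-- the canonical map into the direct limit -/
noncomputable def dl (b : ℕ → Str ar) (e : ∀ k, Fin (b k).1 → Fin (b (k + 1)).1) :
    ∀ m, Fin (b m).1 → Σ k, Fin (b k).1
  | 0, y => ⟨0, y⟩
  | m + 1, y => if h : ∃ y', e m y' = y then dl b e m h.choose else ⟨m + 1, y⟩

variable {b : ℕ → Str ar} {e : ∀ k, Fin (b k).1 → Fin (b (k + 1)).1}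

theorem dl_fst_le (m : ℕ) (y : Fin (b m).1) : (dl b e m y).1 ≤ m := by
  induction m with
  | zero => exact le_rfl
  | succ m ih =>
    rw [dl]
    split
    · exact (ih _).trans (Nat.le_succ m)
    · exact le_rfl

theorem dl_succ (he : ∀ k, Function.Injective (e k)) (m : ℕ) (y : Fin (b m).1) :
    dl b e (m + 1) (e m y) = dl b e m y := by
  have h : ∃ y', e m y' = e m y := ⟨y, rfl⟩
  rw [dl, dif_pos h]
  exact congrArg _ (he m h.choose_spec)

theorem dl_injective (m : ℕ) : Function.Injective (dl b e m) := by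
  induction m with
  | zero =>
    intro x y h
    simpa [dl] using h
  | succ m ih =>
    intro x y h
    rw [dl, dl] at h
    split at h
    · rename_i hx
      split at h
      · rename_i hy
        have := ih h
        rw [← hx.choose_spec, ← hy.choose_spec, this]
      · exfalso
        have h1 := dl_fst_le (b := b) (e := e) m hx.choose
        rw [h] at h1
        simp at h1
    · split at h
      · rename_i hy
        exfalso
        have h1 := dl_fst_le (b := b) (e := e) m hy.choose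
        rw [← h] at h1
        simp at h1
      · simpa using h

/-- the structure on the direct limit -/
def dlSt (b : ℕ → Str ar) (e : ∀ k, Fin (b k).1 → Fin (b (k + 1)).1) :
    St ar (Σ k, Fin (b k).1) :=
  fun i => {t | ∃ m, ∃ s : Fin (ar i) → Fin (b m).1, dl b e m ∘ s = t ∧ s ∈ (b m).2 i}

theorem exists_push (he : ∀ k, Function.Injective (e k) ∧ pull (e k) (b (k + 1)).2 = (b k).2)
    {m m' : ℕ} (h : m ≤ m') : ∃ g : Fin (b m).1 → Fin (b m').1, (∀ x, dl b e m' (g x) = dl b e m x) ∧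
      pull g (b m').2 = (b m).2 := by
  induction m', h using Nat.le_induction with
  | base => exact ⟨fun x => x, fun _ => rfl, rfl⟩
  | succ m' _ ih =>
    obtain ⟨g, hg, hg'⟩ := ih
    refine ⟨fun x => e m' (g x), fun x => ?_, ?_⟩
    · rw [dl_succ (fun k => (he k).1)]
      exact hg x
    · rw [← hg', ← (he m').2]
      rfl

theorem pull_dl (he : ∀ k, Function.Injective (e k) ∧ pull (e k) (b (k + 1)).2 = (b k).2) (m : ℕ) :
    pull (dl b e m) (dlSt b e) = (b m).2 := by
  funext i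
  ext t
  constructor
  · rintro ⟨m', s, hs, hs'⟩
    obtain ⟨g, hg, hg'⟩ := exists_push he (le_max_left m m')
    obtain ⟨g', hg2, hg2'⟩ := exists_push he (le_max_right m m')
    have h1 : g' ∘ s = g ∘ t := by
      funext j
      apply dl_injective (b := b) (e := e)
      have h2 := congrFun hs j
      simp only [Function.comp_apply] at h2 ⊢
      rw [hg2, hg, h2]
    rw [← hg2'] at hs'
    have h3 : g' ∘ s ∈ (b (max m m')).2 i := hs'
    rw [h1] at h3
    rw [← hg']
    exact h3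
  · intro ht
    exact ⟨m, t, rfl, ht⟩

/-- the direct limit of a chain -/
theorem exists_limit (b : ℕ → Str ar) (hb : ∀ k, Embd (b k) (b (k + 1))) :
    ∃ (V : Type) (_ : Countable V) (M : St ar V), ageOf M = {A | ∃ k, Embd A (b k)} := by
  have hb' := fun k => embd_iff_pull.1 (hb k)
  choose e he using hb'
  let V := {x : Σ k, Fin (b k).1 // ∃ m, x ∈ Set.range (dl b e m)}
  refine ⟨V, inferInstance, pull (fun x : V => x.1) (dlSt b e), ?_⟩
  ext A
  constructor
  · rintro ⟨f, hf, hfA⟩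
    have hm : ∃ m, ∀ x, (f x).1 ∈ Set.range (dl b e m) := by
      choose mm hmm using fun x => (f x).2
      refine ⟨Finset.univ.sup mm, fun x => ?_⟩
      obtain ⟨y, hy⟩ := hmm x
      obtain ⟨g, hg, -⟩ := exists_push he (Finset.le_sup (f := mm) (Finset.mem_univ x))
      exact ⟨g y, by rw [hg, hy]⟩
    obtain ⟨m, hm⟩ := hm
    choose g hg using hm
    refine ⟨m, embd_iff_pull.2 ⟨g, fun x y hxy => hf (Subtype.ext ?_), ?_⟩⟩
    · rw [← hg x, ← hg y, hxy]
    · rw [← hfA, ← pull_dl he m]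
      show pull (dl b e m ∘ g) (dlSt b e) = pull (fun x => (f x).1) (dlSt b e)
      have : dl b e m ∘ g = fun x => (f x).1 := funext hg
      rw [this]
  · rintro ⟨k, hk⟩
    obtain ⟨g, hg, hgA⟩ := embd_iff_pull.1 hk
    refine ⟨fun x => ⟨dl b e k (g x), k, g x, rfl⟩, ?_, ?_⟩
    · intro x y hxy
      exact hg (dl_injective k (congrArg Subtype.val hxy))
    · show pull (dl b e k ∘ g) (dlSt b e) = A.2
      rw [← hgA, ← pull_dl he k]
      rfl

/-- a chain in an age which dominates a given sequence -/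
theorem exists_chain {𝒞 : Set (Str ar)} (hC : IsAge 𝒞) (c : ℕ → Str ar) (hc : ∀ k, c k ∈ 𝒞) :
    ∃ b : ℕ → Str ar, (∀ k, b k ∈ 𝒞) ∧ (∀ k, Embd (b k) (b (k + 1))) ∧ ∀ k, Embd (c k) (b k) := by
  have h1 : ∀ (B : {A : Str ar // A ∈ 𝒞}) (k : ℕ), ∃ B' : {A : Str ar // A ∈ 𝒞},
      Embd B.1 B'.1 ∧ Embd (c k) B'.1 := by
    intro B k
    obtain ⟨B', hB', h2, h3⟩ := hC.2.2 B.1 B.2 (c k) (hc k)
    exact ⟨⟨B', hB'⟩, h2, h3⟩
  choose F hF1 hF2 using h1
  let b : ℕ → {A : Str ar // A ∈ 𝒞} := fun n => Nat.rec ⟨c 0, hc 0⟩ (fun k B => F B (k + 1)) n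
  refine ⟨fun n => (b n).1, fun k => (b k).2, fun k => hF1 (b k) (k + 1), fun k => ?_⟩
  cases k with
  | zero => exact Embd.refl' _
  | succ k => exact hF2 (b k) (k + 1)

theorem countable_of_finSz {𝒞 : Set (Str ar)} (h : FinSz 𝒞) : 𝒞.Countable := by
  have h1 : 𝒞 = ⋃ n, {A ∈ 𝒞 | A.1 = n} := by
    ext A
    simp
  rw [h1]
  exact Set.countable_iUnion fun n => (h n).countable

theorem r4 : R4 := by
  intro I ar 𝒞 hC hF
  obtain ⟨c, hc⟩ := (countable_of_finSz hF).exists_eq_range hC.1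
  obtain ⟨b, hb1, hb2, hb3⟩ := exists_chain hC c (fun k => hc ▸ ⟨k, rfl⟩)
  obtain ⟨V, hV, M, hM⟩ := exists_limit b hb2
  refine ⟨V, hV, M, ?_⟩
  rw [hM]
  ext A
  constructor
  · rintro ⟨k, hk⟩
    exact hC.2.1 _ _ (hb1 k) hk
  · intro hA
    rw [hc] at hA
    obtain ⟨k, rfl⟩ := hA
    exact ⟨k, hb3 k⟩

/-- blocks give an independent family of ages -/
theorem not_QF_of_blocks {V : Type} (M : St ar V) (N : ℕ → Set V) (X : ℕ → Str ar)
    (h1 : ∀ j, ∃ f : Fin (X j).1 → V, Function.Injective f ∧ (∀ x, f x ∈ N j) ∧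
      pull f M = (X j).2)
    (h2 : ∀ j, ¬ ∃ f : Fin (X j).1 → V, Function.Injective f ∧ (∀ x, ∃ i, i ≠ j ∧ f x ∈ N i) ∧
      pull f M = (X j).2) : ¬ QF (ageOf M) := by
  classical
  intro hQ
  apply hQ
  refine ⟨fun K => {A | ∃ f : Fin A.1 → V, Function.Injective f ∧ (∀ x, ∃ i ∈ K, f x ∈ N i) ∧
    pull f M = A.2}, X, ?_, ?_, ?_⟩
  · intro K
    refine ⟨⟨?_, ?_, ?_⟩, ?_⟩
    · refine ⟨⟨0, pull (fun x : Fin 0 => x.elim0) M⟩, fun x => x.elim0, fun x => x.elim0,
        fun x => x.elim0, rfl⟩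
    · rintro A B ⟨f, hf, hfN, hfB⟩ hAB
      obtain ⟨g, hg, hgA⟩ := embd_iff_pull.1 hAB
      refine ⟨fun x => f (g x), hf.comp hg, fun x => hfN _, ?_⟩
      rw [← hgA, ← hfB]
      rfl
    · rintro A ⟨f, hf, hfN, hfA⟩ B ⟨g, hg, hgN, hgB⟩
      let S : Finset V := Finset.univ.image f ∪ Finset.univ.image g
      let φ : Fin S.card ≃ S := S.equivFin.symm
      have hf' : ∀ x, f x ∈ S := fun x =>
        Finset.mem_union_left _ (Finset.mem_image_of_mem _ (Finset.mem_univ x))
      have hg' : ∀ x, g x ∈ S := fun x =>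
        Finset.mem_union_right _ (Finset.mem_image_of_mem _ (Finset.mem_univ x))
      refine ⟨⟨S.card, pull (fun x => (φ x).1) M⟩, ⟨fun x => (φ x).1,
        Subtype.val_injective.comp φ.injective, fun x => ?_, rfl⟩, ?_, ?_⟩
      · have h := (φ x).2
        show ∃ i ∈ K, (φ x).1 ∈ N i
        rcases Finset.mem_union.1 h with h | h
        · obtain ⟨y, -, hy⟩ := Finset.mem_image.1 h
          rw [← hy]
          exact hfN y
        · obtain ⟨y, -, hy⟩ := Finset.mem_image.1 h
          rw [← hy]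
          exact hgN y
      · refine embd_iff_pull.2 ⟨fun x => φ.symm ⟨f x, hf' x⟩, ?_, ?_⟩
        · intro x y hxy
          have := φ.symm.injective hxy
          exact hf (congrArg Subtype.val this)
        · rw [← hfA]
          show pull (fun x => (φ (φ.symm ⟨f x, hf' x⟩)).1) M = pull f M
          simp
      · refine embd_iff_pull.2 ⟨fun x => φ.symm ⟨g x, hg' x⟩, ?_, ?_⟩
        · intro x y hxy
          have := φ.symm.injective hxy
          exact hg (congrArg Subtype.val this)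
        · rw [← hgB]
          show pull (fun x => (φ (φ.symm ⟨g x, hg' x⟩)).1) M = pull g M
          simp
    · rintro A ⟨f, hf, -, hfA⟩
      exact ⟨f, hf, hfA⟩
  · rintro K K' hK A ⟨f, hf, hfN, hfA⟩
    refine ⟨f, hf, fun x => ?_, hfA⟩
    obtain ⟨i, hi, hx⟩ := hfN x
    exact ⟨i, hK hi, hx⟩
  · intro K k
    constructor
    · rintro ⟨f, hf, hfN, hfA⟩
      by_contra hk
      refine h2 k ⟨f, hf, fun x => ?_, hfA⟩
      obtain ⟨i, hi, hx⟩ := hfN x
      exact ⟨i, fun h => hk (h ▸ hi), hx⟩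
    · intro hk
      obtain ⟨f, hf, hfN, hfA⟩ := h1 k
      exact ⟨f, hf, fun x => ⟨k, hk, hfN x⟩, hfA⟩

end

end Pool.Agent.Lib.MP_4fb322_lc_q
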