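import Mathlib
import Pool.Agent.Lib.MP_4fb322_lc_q.R4

set_option autoImplicit false

/-!
# R2: finitely many structures of each size (free sets instead of Ramsey)
-/

namespace Pool.Agent.Lib.MP_4fb322_lc_q

open Set Filter

/-- iterated limits along a nonprincipal ultrafilter -/
def QLim (C : ℕ → Finset ℕ → Prop) : ℕ → ℕ → Finset ℕ → Prop
  | 0, k, x => C k x
  | s + 1, k, x => ∀ᶠ y in (hyperfilter ℕ : Filter ℕ), QLim C s k (insert y x)

theorem QLim.card {C : ℕ → Finset ℕ → Prop} {n r : ℕ}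
    (hC : ∀ x : Finset ℕ, x.card ≤ n → ∀ T : Finset ℕ, (∀ k ∈ T, C k x) → T.card ≤ r) :
    ∀ (s : ℕ) (x : Finset ℕ), x.card + s ≤ n → ∀ T : Finset ℕ, (∀ k ∈ T, QLim C s k x) →
      T.card ≤ r := by
  intro s
  induction s with
  | zero => exact fun x hx T hT => hC x hx T hT
  | succ s ih =>
    intro x hx T hT
    have h1 : ∀ᶠ y in (hyperfilter ℕ : Filter ℕ), ∀ k ∈ T, QLim C s k (insert y x) :=
      (Filter.eventually_all_finset T).2 hT
    obtain ⟨y, hy⟩ := h1.exists
    have h2 := Finset.card_insert_le y x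
    exact ih (insert y x) (by omega) T hy

theorem QLim.of {C : ℕ → Finset ℕ → Prop} (hm : ∀ k x y, C k x → C k (insert y x)) :
    ∀ (s k : ℕ) (x : Finset ℕ), C k x → QLim C s k x := by
  intro s
  induction s with
  | zero => exact fun k x h => h
  | succ s ih => exact fun k x h => Filter.Eventually.of_forall fun y => ih k _ (hm k x y h)

/-- the invariant of the construction of a free set -/
def FInv (C : ℕ → Finset ℕ → Prop) (n : ℕ) (T : Finset ℕ) : Prop :=
  ∀ x ⊆ T, x.card ≤ n → ∀ k ∈ T, k ∉ x → ¬ QLim C (n - x.card) k x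

theorem FInv.extend {C : ℕ → Finset ℕ → Prop} {n r : ℕ}
    (hC : ∀ x : Finset ℕ, x.card ≤ n → ∀ T : Finset ℕ, (∀ k ∈ T, C k x) → T.card ≤ r)
    {T : Finset ℕ} (hT : FInv C n T) : ∃ y, (∀ a ∈ T, a < y) ∧ FInv C n (insert y T) := by
  have hlt : ∀ B : ℕ, ∀ᶠ y in (hyperfilter ℕ : Filter ℕ), B < y := fun B => by
    have h : {y : ℕ | y ≤ B}.Finite := Set.finite_le_nat B
    have := h.compl_mem_hyperfilter
    filter_upwards [this] with y hy
    exact not_le.1 hy
  have h1 : ∀ᶠ y in (hyperfilter ℕ : Filter ℕ), ∀ a ∈ T, a < y :=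
    (Filter.eventually_all_finset T).2 fun a _ => hlt a
  have h2 : ∀ᶠ y in (hyperfilter ℕ : Filter ℕ), ∀ x ∈ T.powerset, x.card ≤ n →
      ¬ QLim C (n - x.card) y x := by
    refine (Filter.eventually_all_finset _).2 fun x _ => ?_
    by_cases hx : x.card ≤ n
    · have hfin : {k | QLim C (n - x.card) k x}.Finite := by
        by_contra hinf
        obtain ⟨T', hT', hc⟩ := Set.Infinite.exists_subset_card_eq hinf (r + 1)
        have := QLim.card hC (n - x.card) x (by omega) T' (fun k hk => hT' hk)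
        omega
      filter_upwards [hfin.compl_mem_hyperfilter] with y hy _
      exact hy
    · exact Filter.Eventually.of_forall fun y h => absurd h hx
  have h3 : ∀ᶠ y in (hyperfilter ℕ : Filter ℕ), ∀ x ∈ T.powerset, ∀ k ∈ T, x.card + 1 ≤ n →
      k ∉ x → ¬ QLim C (n - (x.card + 1)) k (insert y x) := by
    refine (Filter.eventually_all_finset _).2 fun x hx => (Filter.eventually_all_finset _).2
      fun k hk => ?_
    by_cases hxn : x.card + 1 ≤ n ∧ k ∉ x
    · have h4 := hT x (Finset.mem_powerset.1 hx) (by omega) k hk hxn.2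
      have h5 : n - x.card = (n - (x.card + 1)) + 1 := by omega
      rw [h5] at h4
      have h6 : ¬ ∀ᶠ y in (hyperfilter ℕ : Filter ℕ),
        QLim C (n - (x.card + 1)) k (insert y x) := h4
      rw [← Ultrafilter.eventually_not] at h6
      filter_upwards [h6] with y hy _ _
      exact hy
    · exact Filter.Eventually.of_forall fun y h h' => absurd ⟨h, h'⟩ hxn
  obtain ⟨y, hy1, hy2, hy3⟩ := (h1.and (h2.and h3)).exists
  have hyT : y ∉ T := fun h => lt_irrefl _ (hy1 y h)
  refine ⟨y, hy1, ?_⟩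
  intro x hx hxn k hk hkx
  by_cases hyx : y ∈ x
  · have hx' : x.erase y ⊆ T := by
      intro a ha
      have h4 := hx (Finset.mem_of_mem_erase ha)
      rcases Finset.mem_insert.1 h4 with rfl | h4
      · exact absurd rfl (Finset.ne_of_mem_erase ha)
      · exact h4
    have hk' : k ∈ T := by
      rcases Finset.mem_insert.1 hk with rfl | h4
      · exact absurd hyx hkx
      · exact h4
    have hc := Finset.card_erase_add_one hyx
    have h4 := hy3 (x.erase y) (Finset.mem_powerset.2 hx') k hk' (by omega)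
      (fun h => hkx (Finset.mem_of_mem_erase h))
    rw [hc, Finset.insert_erase hyx] at h4
    exact h4
  · have hx' : x ⊆ T := by
      intro a ha
      rcases Finset.mem_insert.1 (hx ha) with rfl | h4
      · exact absurd ha hyx
      · exact h4
    rcases Finset.mem_insert.1 hk with rfl | hk'
    · exact hy2 x (Finset.mem_powerset.2 hx') hxn
    · exact hT x hx' hxn k hk' hkx

/-- the free set theorem for finite set mappings with bounded values -/
theorem exists_free {C : ℕ → Finset ℕ → Prop} {n r : ℕ}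
    (hm : ∀ k x y, C k x → C k (insert y x))
    (hC : ∀ x : Finset ℕ, x.card ≤ n → ∀ T : Finset ℕ, (∀ k ∈ T, C k x) → T.card ≤ r) :
    ∃ H : ℕ → ℕ, StrictMono H ∧ ∀ x : Finset ℕ, x.card ≤ n → (∀ a ∈ x, a ∈ Set.range H) →
      ∀ k ∈ Set.range H, k ∉ x → ¬ C k x := by
  have hs : ∀ T : {T : Finset ℕ // FInv C n T}, ∃ y, (∀ a ∈ T.1, a < y) ∧
      FInv C n (insert y T.1) := fun T => FInv.extend hC T.2
  choose y hy1 hy2 using hs
  let D : ℕ → {T : Finset ℕ // FInv C n T} := fun m =>
    Nat.rec ⟨∅, fun x _ _ k hk => absurd hk (Finset.notMem_empty k)⟩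
      (fun _ T => ⟨insert (y T) T.1, hy2 T⟩) m
  have hD : ∀ m, (D (m + 1)).1 = insert (y (D m)) (D m).1 := fun _ => rfl
  have hmono : ∀ m m', m ≤ m' → (D m).1 ⊆ (D m').1 := by
    intro m m' h
    induction m', h using Nat.le_induction with
    | base => exact Finset.Subset.refl _
    | succ m' _ ih => exact ih.trans (by rw [hD]; exact Finset.subset_insert _ _)
  have hmem : ∀ m m', m < m' → y (D m) ∈ (D m').1 := by
    intro m m' h
    refine hmono (m + 1) m' h ?_
    rw [hD]
    exact Finset.mem_insert_self _ _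
  refine ⟨fun m => y (D m), ?_, ?_⟩
  · refine strictMono_nat_of_lt_succ fun m => ?_
    exact hy1 (D (m + 1)) _ (hmem m (m + 1) (Nat.lt_succ_self m))
  · rintro x hx hxH k ⟨m0, rfl⟩ hkx hCk
    have h1 : ∃ m', x ⊆ (D m').1 ∧ m0 < m' := by
      choose g hg using hxH
      refine ⟨max (x.attach.sup (fun a => g a.1 a.2)) m0 + 1, fun a ha => ?_, by omega⟩
      have h2 : g a ha ≤ x.attach.sup (fun a => g a.1 a.2) :=
        Finset.le_sup (f := fun a : {b // b ∈ x} => g a.1 a.2) (Finset.mem_attach x ⟨a, ha⟩)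
      have h3 := hmem (g a ha) (max (x.attach.sup (fun a => g a.1 a.2)) m0 + 1) (by omega)
      have h4 : y (D (g a ha)) = a := hg a ha
      rw [h4] at h3
      exact h3
    obtain ⟨m', hxm, hm0⟩ := h1
    exact (D m').2 x hxm hx _ (hmem m0 m' hm0) hkx (QLim.of hm _ _ _ hCk)

section

variable {I : Type} {ar : I → ℕ}

theorem r2 : R2 := by
  classical
  intro I ar 𝒜 hA hQ n
  by_contra hinf
  -- infinitely many structures on `Fin n`
  have hinf' : {σ : St ar (Fin n) | (⟨n, σ⟩ : Str ar) ∈ 𝒜}.Infinite := by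
    intro hfin
    apply hinf
    refine (hfin.image (fun σ => (⟨n, σ⟩ : Str ar))).subset ?_
    rintro ⟨m, σ⟩ ⟨h1, h2⟩
    obtain rfl : m = n := h2
    exact ⟨σ, h1, rfl⟩
  have hiso : ∀ σ : St ar (Fin n), {ρ : St ar (Fin n) | ∃ f : Fin n → Fin n,
      Function.Injective f ∧ (pull f σ = ρ ∨ pull f ρ = σ)}.Finite := by
    intro σ
    refine (Set.finite_range (fun f : Fin n → Fin n => pull f σ)).subset ?_
    rintro ρ ⟨f, hf, h | h⟩
    · exact ⟨f, h⟩
    · have hb := Function.Injective.bijective_of_finite hf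
      let φ := Equiv.ofBijective f hb
      refine ⟨φ.symm, ?_⟩
      have h2 : pull (f ∘ φ.symm) ρ = ρ := by
        have : f ∘ φ.symm = id := by
          funext x
          exact φ.apply_symm_apply x
        rw [this]
        rfl
      show pull (φ.symm) σ = ρ
      rw [← h]
      exact h2
  obtain ⟨σ, hσ, hσ'⟩ := exists_seq_of_forall_finset_exists
    (fun σ : St ar (Fin n) => (⟨n, σ⟩ : Str ar) ∈ 𝒜)
    (fun σ ρ => ¬ ∃ f : Fin n → Fin n, Function.Injective f ∧ (pull f σ = ρ ∨ pull f ρ = σ)) (by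
      intro s _
      have h1 : (⋃ σ ∈ s, {ρ : St ar (Fin n) | ∃ f : Fin n → Fin n,
        Function.Injective f ∧ (pull f σ = ρ ∨ pull f ρ = σ)}).Finite :=
        s.finite_toSet.biUnion fun σ _ => hiso σ
      obtain ⟨ρ, hρ1, hρ2⟩ := (hinf'.sdiff h1).nonempty
      refine ⟨ρ, hρ1, fun σ hσ h => hρ2 ?_⟩
      exact Set.mem_biUnion hσ h)
  have hne : ∀ i j, i ≠ j → ∀ f : Fin n → Fin n, Function.Injective f → pull f (σ i) ≠ σ j := by
    intro i j hij f hf h
    rcases lt_or_gt_of_ne hij with h1 | h1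
    · exact hσ' i j h1 ⟨f, hf, Or.inl h⟩
    · exact hσ' j i h1 ⟨f, hf, Or.inr h⟩
  have hinj : Function.Injective σ := by
    intro i j hij
    by_contra hne'
    exact hne i j hne' (fun x => x) (fun _ _ h => h) hij
  -- one countable structure
  obtain ⟨b, hb1, hb2, hb3⟩ := exists_chain hA (fun k => (⟨n, σ k⟩ : Str ar)) hσ
  obtain ⟨V, -, M, hM⟩ := exists_limit b hb2
  have hsub : ageOf M ⊆ 𝒜 := by
    rw [hM]
    rintro A ⟨k, hk⟩
    exact hA.2.1 _ _ (hb1 k) hk
  have hY : ∀ k, ∃ f : Fin n → V, Function.Injective f ∧ pull f M = σ k := by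
    intro k
    have h1 : (⟨n, σ k⟩ : Str ar) ∈ ageOf M := by
      rw [hM]
      exact ⟨k, hb3 k⟩
    exact h1
  choose Y hY1 hY2 using hY
  let C : ℕ → Finset ℕ → Prop := fun k x => ∃ (l : Fin n → ℕ) (δ : Fin n → Fin n),
    (∀ i, l i ∈ x) ∧ pull (fun i => Y (l i) (δ i)) M = σ k
  obtain ⟨H, hH, hfree⟩ := exists_free (C := C) (n := n) (r := n ^ n * n ^ n)
    (by
      rintro k x y ⟨l, δ, h1, h2⟩
      exact ⟨l, δ, fun i => Finset.mem_insert_of_mem (h1 i), h2⟩)
    (by
      intro x hx T hT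
      have h1 : ∀ k ∈ T, ∃ p : (Fin n → ℕ) × (Fin n → Fin n), (∀ i, p.1 i ∈ x) ∧
          pull (fun i => Y (p.1 i) (p.2 i)) M = σ k := by
        intro k hk
        obtain ⟨l, δ, h2, h3⟩ := hT k hk
        exact ⟨(l, δ), h2, h3⟩
      have : Nonempty ((Fin n → ℕ) × (Fin n → Fin n)) := ⟨(fun _ => 0, fun x => x)⟩
      choose! p hp1 hp2 using h1
      have h2 : T.card ≤ ((Fintype.piFinset (fun _ : Fin n => x)) ×ˢ
          (Finset.univ : Finset (Fin n → Fin n))).card := by
        refine Finset.card_le_card_of_injOn p ?_ ?_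
        · intro k hk
          simp only [Finset.coe_product, Set.mem_prod, Finset.mem_coe, Fintype.mem_piFinset,
            Finset.mem_univ, and_true]
          exact hp1 k hk
        · intro k hk k' hk' h
          apply hinj
          rw [← hp2 k hk, ← hp2 k' hk', h]
      refine h2.trans ?_
      rw [Finset.card_product, Fintype.card_piFinset]
      simp only [Finset.prod_const, Finset.card_univ, Fintype.card_fin, Fintype.card_pi]
      exact Nat.mul_le_mul_right _ (Nat.pow_le_pow_left hx n))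
  -- the blocks
  refine not_QF_of_blocks M (fun j => Set.range (Y (H j))) (fun j => (⟨n, σ (H j)⟩ : Str ar))
    (fun j => ⟨Y (H j), hY1 _, fun x => ⟨x, rfl⟩, hY2 _⟩) ?_ ?_
  · rintro j ⟨f, -, hfN, hfM⟩
    choose i hi hfi using hfN
    choose δ hδ using hfi
    let x : Finset ℕ := Finset.univ.image (fun a => H (i a))
    have hx : x.card ≤ n := by
      have := Finset.card_image_le (s := (Finset.univ : Finset (Fin n))) (f := fun a => H (i a))
      simpa using this
    refine hfree x hx ?_ (H j) ⟨j, rfl⟩ ?_ ⟨fun a => H (i a), δ, ?_, ?_⟩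
    · intro a ha
      obtain ⟨c, -, rfl⟩ := Finset.mem_image.1 ha
      exact ⟨_, rfl⟩
    · intro h
      obtain ⟨c, -, hc⟩ := Finset.mem_image.1 h
      exact hi c (hH.injective hc)
    · exact fun a => Finset.mem_image_of_mem _ (Finset.mem_univ a)
    · have h1 : (fun a => Y (H (i a)) (δ a)) = f := funext hδ
      rw [h1]
      exact hfM
  · rintro ⟨B, X, h1, h2, h3⟩
    exact hQ ⟨B, X, fun K => ⟨(h1 K).1, (h1 K).2.trans hsub⟩, h2, h3⟩

end

end Pool.Agent.Lib.MP_4fb322_lc_q
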