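import Mathlib
import Pool.Agent.Lib.MP_4fb322_lc_q.Iface

set_option autoImplicit false

/-!
# Reductions R1 and R8
-/

namespace Pool.Agent.Lib.MP_4fb322_lc_q

open Set Filter

section REasy

/-- `R1` -/
theorem r1 : R1 := by
  intro I ar 𝒜
  constructor
  · rintro h ⟨B, X, hB, hmono, hX⟩
    refine h ⟨fun k => B {i | k ≤ i}, fun k => ⟨(hB _).2, (hB _).1⟩, fun k => ?_⟩
    refine ⟨hmono _ _ fun i (hi : k + 1 ≤ i) => show k ≤ i by omega, fun hsub => ?_⟩
    have h1 : X k ∈ B {i | k ≤ i} := (hX _ _).2 (show k ≤ k from le_rfl)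
    have h2 : k + 1 ≤ k := (hX _ _).1 (hsub h1)
    omega
  · rintro h ⟨B, X, hB, hmono, hX⟩
    have hinj : Function.Injective B := by
      intro K K' hKK
      ext k
      rw [← hX K k, ← hX K' k, hKK]
    have h1 : (Set.range B).Countable := by
      refine Set.Countable.mono ?_ h
      rintro _ ⟨K, rfl⟩
      exact ⟨(hB K).2, (hB K).1⟩
    have h2 : Countable (Set ℕ) := by
      have := h1.to_subtype
      exact (Equiv.ofInjective B hinj).injective.countable
    obtain ⟨f, hf⟩ := (countable_iff_exists_injective (Set ℕ)).1 h2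
    exact Function.cantor_injective f hf

variable {I : Type} {ar : I → ℕ}

theorem re_refl (A : Str ar) : Embd A A := ⟨id, Function.injective_id, fun _ _ => Iff.rfl⟩

theorem re_trans {A B C : Str ar} (h : Embd A B) (h' : Embd B C) : Embd A C := by
  obtain ⟨f, hf, hf'⟩ := h
  obtain ⟨g, hg, hg'⟩ := h'
  exact ⟨g ∘ f, hg.comp hf, fun i t => (hf' i t).trans (hg' i (f ∘ t))⟩

theorem re_card {A B : Str ar} (h : Embd A B) : A.1 ≤ B.1 := by
  obtain ⟨f, hf, -⟩ := h
  have := Fintype.card_le_of_injective f hf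
  simpa using this

theorem re_symm {A B : Str ar} (h : Embd A B) (hc : B.1 ≤ A.1) : Embd B A := by
  obtain ⟨n, A⟩ := A
  obtain ⟨m, B⟩ := B
  have h1 := re_card h
  have h2 : n = m := le_antisymm h1 hc
  subst h2
  obtain ⟨f, hf, hf'⟩ := h
  have hb : Function.Bijective f := Finite.injective_iff_bijective.1 hf
  let e := Equiv.ofBijective f hb
  refine ⟨e.symm, e.symm.injective, fun i t => ?_⟩
  have h3 := hf' i (e.symm ∘ t)
  have h4 : f ∘ (e.symm ∘ t) = t := by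
    funext x
    exact e.apply_symm_apply (t x)
  rw [h4] at h3
  exact h3.symm

/-- no infinite antichain = well quasi order -/
theorem re_wqo {𝒜 : Set (Str ar)} (h : NoAntichain 𝒜) (s : ℕ → Str ar) (hs : ∀ k, s k ∈ 𝒜) :
    ∃ i j, i < j ∧ Embd (s i) (s j) := by
  have : IsTrans (Str ar) Embd := ⟨fun _ _ _ h h' => re_trans h h'⟩
  have : IsTrans (Str ar) (fun A B => Embd B A) := ⟨fun _ _ _ h h' => re_trans h' h⟩
  rcases exists_increasing_or_nonincreasing_subseq Embd s with ⟨g, hg | hg⟩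
  · exact ⟨g 0, g 1, g.lt_iff_lt.2 (by norm_num), hg 0 1 (by norm_num)⟩
  exfalso
  rcases exists_increasing_or_nonincreasing_subseq (fun A B => Embd B A) (s ∘ g) with ⟨k, hk | hk⟩
  · let c : ℕ → ℕ := fun n => (s (g (k n))).1
    obtain ⟨m, hm⟩ : ∃ m, ∀ n, c m ≤ c n := by
      have hne : (Set.range c).Nonempty := ⟨c 0, 0, rfl⟩
      obtain ⟨m, hm⟩ := Nat.sInf_mem hne
      exact ⟨m, fun n => hm ▸ Nat.sInf_le ⟨n, rfl⟩⟩
    have h1 : Embd (s (g (k (m + 1)))) (s (g (k m))) := hk m (m + 1) (by omega)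
    have h2 := re_symm h1 (hm (m + 1))
    exact hg _ _ (k.lt_iff_lt.2 (Nat.lt_succ_self m)) h2
  · refine h ⟨fun n => s (g (k n)), fun n => hs _, fun m n hmn => ?_⟩
    rcases lt_or_gt_of_ne hmn with hlt | hlt
    · exact hg _ _ (k.lt_iff_lt.2 hlt)
    · exact hk n m hlt

theorem re_finSz {𝒜 : Set (Str ar)} (h : NoAntichain 𝒜) : FinSz 𝒜 := by
  classical
  intro n
  have hT : {s : St ar (Fin n) | (⟨n, s⟩ : Str ar) ∈ 𝒜}.Finite := by
    by_contra hinf
    have hinf : {s : St ar (Fin n) | (⟨n, s⟩ : Str ar) ∈ 𝒜}.Infinite := hinf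
    let e := hinf.natEmbedding
    have : IsTrans (Str ar) Embd := ⟨fun _ _ _ h h' => re_trans h h'⟩
    rcases exists_increasing_or_nonincreasing_subseq Embd
      (fun k => (⟨n, (e k : St ar (Fin n))⟩ : Str ar)) with ⟨g, hg | hg⟩
    · have h1 : ∀ k : ℕ, ∃ f : Fin n → Fin n,
          (e (g (k + 1)) : St ar (Fin n)) = pull f (e (g 0) : St ar (Fin n)) := by
        intro k
        have h2 := re_symm (hg 0 (k + 1) (by omega)) le_rfl
        obtain ⟨f, -, hf⟩ := h2
        refine ⟨f, ?_⟩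
        funext i
        ext t
        exact hf i t
      choose f hf using h1
      have hfi : Function.Injective f := by
        intro k k' hkk
        have h2 : (e (g (k + 1)) : St ar (Fin n)) = e (g (k' + 1)) := by
          rw [hf k, hf k', hkk]
        have h3 := g.injective (e.injective (Subtype.ext h2))
        omega
      have := Finite.of_injective f hfi
      exact not_finite ℕ
    · obtain ⟨i, j, hij, hE⟩ := re_wqo h
        (fun k => (⟨n, (e (g k) : St ar (Fin n))⟩ : Str ar)) (fun k => (e (g k)).2)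
      exact hg i j hij hE
  refine (hT.image (fun s => (⟨n, s⟩ : Str ar))).subset ?_
  rintro ⟨m, A⟩ ⟨hA, hm⟩
  have hm : m = n := hm
  subst hm
  exact ⟨A, hA, rfl⟩

/-- `R8` -/
theorem r8 : R8 := by
  classical
  intro I ar 𝒜 hage hno
  constructor
  · rintro ⟨D, hD, hlt⟩
    have hx : ∀ k, ∃ x, x ∈ D k ∧ x ∉ D (k + 1) := by
      intro k
      obtain ⟨x, hx1, hx2⟩ := Set.exists_of_ssubset (hlt k)
      exact ⟨x, hx1, hx2⟩
    choose x hx1 hx2 using hx
    have hanti : Antitone D := antitone_nat_of_succ_le fun k => (hlt k).1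
    obtain ⟨i, j, hij, hE⟩ := re_wqo hno x fun k => (hD k).1 (hx1 k)
    have h1 : x j ∈ D (i + 1) := hanti (show i + 1 ≤ j from hij) (hx1 j)
    exact hx2 i ((hD (i + 1)).2.2.1 _ _ h1 hE)
  · have hfin := re_finSz hno
    have hct : 𝒜.Countable := by
      have h1 : 𝒜 ⊆ ⋃ n : ℕ, {A ∈ 𝒜 | A.1 = n} := fun A hA => Set.mem_iUnion.2 ⟨A.1, hA, rfl⟩
      exact (Set.countable_iUnion fun n => (hfin n).countable).mono h1
    have hbase : ∀ ℬ : Set (Str ar), ∃ F : Set (Str ar), F.Finite ∧ F ⊆ 𝒜 ∧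
        (∀ b ∈ F, b ∉ ℬ) ∧ ∀ A ∈ 𝒜, A ∉ ℬ → ∃ b ∈ F, Embd b A := by
      intro ℬ
      by_contra hcon
      have hstep : ∀ s : Finset (Str ar), (∀ x ∈ s, x ∈ 𝒜 ∧ x ∉ ℬ) →
          ∃ y, (y ∈ 𝒜 ∧ y ∉ ℬ) ∧ ∀ x ∈ s, ¬ Embd x y := by
        intro s hs
        by_contra hcon2
        refine hcon ⟨s, s.finite_toSet, fun x hx => (hs x hx).1, fun x hx => (hs x hx).2,
          fun A hA hAB => ?_⟩
        by_contra hcon3
        exact hcon2 ⟨A, ⟨hA, hAB⟩, fun x hx hE => hcon3 ⟨x, hx, hE⟩⟩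
      obtain ⟨f, hf1, hf2⟩ := exists_seq_of_forall_finset_exists
        (fun x : Str ar => x ∈ 𝒜 ∧ x ∉ ℬ) (fun x y => ¬ Embd x y) hstep
      obtain ⟨i, j, hij, hE⟩ := re_wqo hno f fun k => (hf1 k).1
      exact hf2 i j hij hE
    have h2 : {F : Set (Str ar) | F.Finite ∧ F ⊆ 𝒜}.Countable :=
      Set.countable_setOf_finite_subset hct
    refine (h2.image fun F => {A ∈ 𝒜 | ∀ b ∈ F, ¬ Embd b A}).mono ?_
    rintro ℬ ⟨hsub, hB⟩
    obtain ⟨F, hF1, hF2, hF3, hF4⟩ := hbase ℬ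
    refine ⟨F, ⟨hF1, hF2⟩, ?_⟩
    ext A
    constructor
    · rintro ⟨hA, hA2⟩
      by_contra hAB
      obtain ⟨b, hb, hbA⟩ := hF4 A hA hAB
      exact hA2 b hb hbA
    · intro hA
      exact ⟨hsub hA, fun b hb hbA => hF3 b hb (hB.2.1 _ _ hA hbA)⟩

end REasy

end Pool.Agent.Lib.MP_4fb322_lc_q
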