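import Mathlib
import Pool.Agent.Lib.MP_4fb322_lc_q.Iface

set_option autoImplicit false

/-!
# Reductions: the quotient by equality, for R5, R6, R7
-/

namespace Pool.Agent.Lib.MP_4fb322_lc_q

open Set Filter

section RQuot

variable {I : Type} {ar : I → ℕ}

theorem rq_pull_comp {X Y V : Type} (g : X → Y) (f : Y → V) (M : St ar V) :
    pull g (pull f M) = pull (f ∘ g) M := rfl

theorem rq_pull_stE {X V : Type} (f : X → V) (hf : Function.Injective f)
    (M : St ar V) : pull f (stE M) = stE (pull f M) := by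
  funext i
  cases i with
  | none =>
    ext t
    exact hf.eq_iff
  | some i => rfl

theorem rq_inj_of {X V : Type} {f : X → V} {M : St ar V} {A : St ar X}
    (h : pull f (stE M) = stE A) : Function.Injective f ∧ pull f M = A := by
  refine ⟨?_, ?_⟩
  · intro x y hxy
    have h0 : (![x, y] : Fin 2 → X) ∈ (pull f (stE M) : St (arE ar) X) none := hxy
    rw [h] at h0
    exact h0
  · funext i
    exact congrFun h (some i)

theorem rq_mem_ageOf {V : Type} {M : St ar V} {A : Str ar} :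
    A ∈ ageOf M ↔ ∃ f : Fin A.1 → V, pull f (stE M) = stE A.2 := by
  constructor
  · rintro ⟨f, hf, h⟩
    exact ⟨f, by rw [rq_pull_stE f hf, h]⟩
  · rintro ⟨f, h⟩
    exact ⟨f, (rq_inj_of h).1, (rq_inj_of h).2⟩

theorem rq_embd_iff {A B : Str ar} :
    Embd A B ↔ ∃ f : Fin A.1 → Fin B.1, pull f (stE B.2) = stE A.2 := by
  constructor
  · rintro ⟨f, hf, h⟩
    refine ⟨f, ?_⟩
    rw [rq_pull_stE f hf]
    congr 1
    funext i
    ext t
    exact (h i t).symm
  · rintro ⟨f, h⟩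
    refine ⟨f, (rq_inj_of h).1, fun i t => ?_⟩
    have h2 := (rq_inj_of h).2
    have h3 : pull f B.2 i = A.2 i := congrFun h2 i
    rw [← h3]
    exact Iff.rfl

/-- factorisation of a map from a finite set through its image -/
theorem rq_factor {V : Type} {n : ℕ} (g : Fin n → V) :
    ∃ (m : ℕ) (e : Fin n → Fin m) (h : Fin m → V) (s : Fin m → Fin n),
      m ≤ n ∧ Function.Injective h ∧ h ∘ e = g ∧ g ∘ s = h ∧ e ∘ s = id := by
  classical
  let R := Set.range g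
  have : Fintype R := Fintype.ofFinite _
  let eq : R ≃ Fin (Fintype.card R) := Fintype.equivFin R
  have hs : ∀ r : R, ∃ x, g x = r := fun r => r.2
  choose s hs using hs
  refine ⟨Fintype.card R, fun x => eq ⟨g x, x, rfl⟩, fun y => (eq.symm y : V), fun y => s (eq.symm y),
    ?_, ?_, ?_, ?_, ?_⟩
  · have : Fintype.card R ≤ Fintype.card (Fin n) :=
      Fintype.card_le_of_surjective (fun x : Fin n => (⟨g x, x, rfl⟩ : R))
        (by rintro ⟨_, x, rfl⟩; exact ⟨x, rfl⟩)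
    simpa using this
  · intro y y' h
    exact eq.symm.injective (Subtype.ext h)
  · funext x
    simp
  · funext y
    exact hs _
  · funext y
    have h1 : (⟨g (s (eq.symm y)), s (eq.symm y), rfl⟩ : R) = eq.symm y := Subtype.ext (hs _)
    show eq ⟨g (s (eq.symm y)), _, rfl⟩ = y
    rw [h1, Equiv.apply_symm_apply]

/-- `R6` -/
theorem r6 : R6 := by
  intro I ar V M hF n
  let T : (m : ℕ) → Set (St ar (Fin m)) := fun m => {s | (⟨m, s⟩ : Str ar) ∈ ageOf M}
  have hT : ∀ m, (T m).Finite := by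
    intro m
    have h1 : ((fun s : St ar (Fin m) => (⟨m, s⟩ : Str ar)) '' T m).Finite := by
      refine (hF m).subset ?_
      rintro _ ⟨s, hs, rfl⟩
      exact ⟨hs, rfl⟩
    exact h1.of_finite_image (fun x _ y _ hxy => eq_of_heq (Sigma.mk.inj_iff.1 hxy).2)
  have hfin : (⋃ m ∈ Finset.range (n + 1), ⋃ e : Fin n → Fin m,
      (fun s : St ar (Fin m) => pull e (stE s)) '' T m).Finite := by
    refine Set.Finite.biUnion (Finset.finite_toSet _) fun m _ => ?_
    exact Set.finite_iUnion fun e => (hT m).image _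
  refine hfin.subset ?_
  rintro _ ⟨g, rfl⟩
  obtain ⟨m, e, h, s, hm, hi, he, -, -⟩ := rq_factor g
  refine Set.mem_biUnion (show m ∈ Finset.range (n + 1) from Finset.mem_range.2 (by omega)) ?_
  refine Set.mem_iUnion.2 ⟨e, pull h M, ⟨h, hi, rfl⟩, ?_⟩
  show pull e (stE (pull h M)) = pull g (stE M)
  rw [← rq_pull_stE h hi, rq_pull_comp, he]

/-- `R5` -/
theorem r5 : R5 := by
  classical
  intro I ar V M z a hF hA hz ha hmin ι W N hN hzN haN
  choose f hf using hN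
  let 𝒞' : Set (Str ar) := {A | ∀ᶠ i in (W : Filter ι), FLe (liftE A) (N i)}
  have hsub : 𝒞' ⊆ ageOf M := by
    intro A hA'
    obtain ⟨i, g, hg⟩ := Filter.Eventually.exists hA'
    refine rq_mem_ageOf.2 ⟨f i ∘ g, ?_⟩
    have h1 : pull g (pull (f i) (stE M)) = (liftE A).2 := by
      rw [hf i]
      exact hg
    exact h1
  have hdir : ∀ A ∈ 𝒞', ∀ B ∈ 𝒞', ∃ C ∈ 𝒞', Embd A C ∧ Embd B C := by
    intro A hA' B hB'
    have hfin : ({C : Str ar | C ∈ ageOf M ∧ C.1 ≤ A.1 + B.1}).Finite := by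
      have : {C : Str ar | C ∈ ageOf M ∧ C.1 ≤ A.1 + B.1} ⊆
          ⋃ m ∈ Finset.range (A.1 + B.1 + 1), {C ∈ ageOf M | C.1 = m} := by
        rintro C ⟨hC1, hC2⟩
        exact Set.mem_biUnion (show C.1 ∈ Finset.range (A.1 + B.1 + 1) from
          Finset.mem_range.2 (by omega)) ⟨hC1, rfl⟩
      exact (Set.Finite.biUnion (Finset.finite_toSet _) fun m _ => hF m).subset this
    have hev : ∀ᶠ i in (W : Filter ι), ∃ C ∈ {C : Str ar | C ∈ ageOf M ∧ C.1 ≤ A.1 + B.1},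
        (Embd A C ∧ Embd B C) ∧ FLe (liftE C) (N i) := by
      filter_upwards [hA', hB'] with i hi1 hi2
      obtain ⟨g1, hg1⟩ := hi1
      obtain ⟨g2, hg2⟩ := hi2
      let F : Fin (A.1 + B.1) → Fin (N i).1 := fun x => Sum.elim g1 g2 (finSumFinEquiv.symm x)
      obtain ⟨m, e, h, s, hm, hi, he, hs, -⟩ := rq_factor (f i ∘ F)
      refine ⟨⟨m, pull h M⟩, ⟨⟨h, hi, rfl⟩, hm⟩, ⟨?_, ?_⟩, ?_⟩
      · refine rq_embd_iff.2 ⟨fun x => e (finSumFinEquiv (Sum.inl x)), ?_⟩
        show pull _ (stE (pull h M)) = stE A.2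
        have h1 : stE A.2 = pull g1 (N i).2 := hg1.symm
        rw [← rq_pull_stE h hi, rq_pull_comp, h1, ← hf i, rq_pull_comp]
        congr 1
        funext x
        have h5 := congrFun he (finSumFinEquiv (Sum.inl x))
        refine h5.trans ?_
        show f i (Sum.elim g1 g2 (finSumFinEquiv.symm (finSumFinEquiv (Sum.inl x)))) = f i (g1 x)
        rw [Equiv.symm_apply_apply]
        rfl
      · refine rq_embd_iff.2 ⟨fun x => e (finSumFinEquiv (Sum.inr x)), ?_⟩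
        show pull _ (stE (pull h M)) = stE B.2
        have h1 : stE B.2 = pull g2 (N i).2 := hg2.symm
        rw [← rq_pull_stE h hi, rq_pull_comp, h1, ← hf i, rq_pull_comp]
        congr 1
        funext x
        have h5 := congrFun he (finSumFinEquiv (Sum.inr x))
        refine h5.trans ?_
        show f i (Sum.elim g1 g2 (finSumFinEquiv.symm (finSumFinEquiv (Sum.inr x)))) = f i (g2 x)
        rw [Equiv.symm_apply_apply]
        rfl
      · refine ⟨F ∘ s, ?_⟩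
        show pull (F ∘ s) (N i).2 = stE (pull h M)
        rw [← hf i, rq_pull_comp, ← rq_pull_stE h hi]
        congr 1
    obtain ⟨C, hC1, hC2⟩ : ∃ C ∈ {C : Str ar | C ∈ ageOf M ∧ C.1 ≤ A.1 + B.1},
        ∀ᶠ i in (W : Filter ι), (Embd A C ∧ Embd B C) ∧ FLe (liftE C) (N i) := by
      by_contra hno
      have hno : ∀ C ∈ {C : Str ar | C ∈ ageOf M ∧ C.1 ≤ A.1 + B.1},
          ¬ ∀ᶠ i in (W : Filter ι), (Embd A C ∧ Embd B C) ∧ FLe (liftE C) (N i) :=
        fun C hC hh => hno ⟨C, hC, hh⟩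
      have h1 : ∀ C ∈ {C : Str ar | C ∈ ageOf M ∧ C.1 ≤ A.1 + B.1},
          ∀ᶠ i in (W : Filter ι), ¬ ((Embd A C ∧ Embd B C) ∧ FLe (liftE C) (N i)) := by
        intro C hC
        exact Ultrafilter.eventually_not.2 (hno C hC)
      have h2 := (Filter.eventually_all_finite hfin).2 h1
      obtain ⟨i, hi1, hi2⟩ := (hev.and h2).exists
      obtain ⟨C, hC, hC3⟩ := hi1
      exact hi2 C hC hC3
    refine ⟨C, ?_, ?_⟩
    · filter_upwards [hC2] with i hi using hi.2
    · obtain ⟨i, hi⟩ := hC2.exists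
      exact hi.1
  have hage : IsAge 𝒞' := by
    refine ⟨⟨z, hzN⟩, ?_, hdir⟩
    intro A B hB hAB
    obtain ⟨k, hk⟩ := rq_embd_iff.1 hAB
    filter_upwards [hB] with i hi
    obtain ⟨g, hg⟩ := hi
    refine ⟨g ∘ k, ?_⟩
    rw [← rq_pull_comp, hg]
    exact hk
  have heq : 𝒞' = ageOf M := hmin 𝒞' hsub hage hzN haN
  rintro B ⟨g, hg⟩
  obtain ⟨m, e, h, s, hm, hi, he, -, -⟩ := rq_factor g
  have hmem : (⟨m, pull h M⟩ : Str ar) ∈ 𝒞' := by
    rw [heq]
    exact ⟨h, hi, rfl⟩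
  filter_upwards [hmem] with i hi'
  obtain ⟨k, hk⟩ := hi'
  refine ⟨k ∘ e, ?_⟩
  rw [← rq_pull_comp, hk]
  show pull e (stE (pull h M)) = B.2
  rw [← rq_pull_stE h hi, rq_pull_comp, he, hg]

/-- `R7` -/
theorem r7 : R7 := by
  classical
  rintro I ar V M ⟨W, S, N, B, hS, hB⟩ hQ
  choose hB1 hB2 using hB
  choose f hfN hf using hB1
  -- every finite part of `S` is a pull back
  have hS' : ∀ (n : ℕ) (F : Fin n → W), ∃ (m : ℕ) (e : Fin n → Fin m) (s : Fin m → Fin n)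
      (A : St ar (Fin m)), e ∘ s = id ∧ pull e (stE A) = pull F S ∧ pull (F ∘ s) S = stE A ∧
        (⟨m, A⟩ : Str ar) ∈ ageOf M := by
    intro n F
    obtain ⟨g, hg⟩ := hS n F
    obtain ⟨m, e, h, s, hm, hi, he, hs, hes⟩ := rq_factor g
    have hg' : pull g (stE M) = pull F S := hg
    refine ⟨m, e, s, pull h M, hes, ?_, ?_, ⟨h, hi, rfl⟩⟩
    · rw [← rq_pull_stE h hi, rq_pull_comp, he, hg']
    · rw [← rq_pull_stE h hi, ← rq_pull_comp, ← hg', rq_pull_comp, hs]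
  let Bf : Set ℕ → Set (Str ar) := fun K =>
    {A | ∃ F : Fin A.1 → W, (∀ x, ∃ k ∈ K, F x ∈ N k) ∧ pull F S = stE A.2}
  have hX : ∀ j, ∃ X : Str ar, (∃ s : Fin X.1 → Fin (B j).1, pull (f j ∘ s) S = stE X.2) ∧
      ∃ e : Fin (B j).1 → Fin X.1, pull e (stE X.2) = (B j).2 := by
    intro j
    obtain ⟨m, e, s, A, hes, h1, h2, h3⟩ := hS' _ (f j)
    exact ⟨⟨m, A⟩, ⟨s, h2⟩, e, by rw [← hf j]; exact h1⟩
  choose X hX1 hX2 using hX
  have hsubage : ∀ K, Bf K ⊆ ageOf M := by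
    rintro K A ⟨F, hF1, hF2⟩
    obtain ⟨g, hg⟩ := hS _ F
    refine rq_mem_ageOf.2 ⟨g, ?_⟩
    rw [hF2] at hg
    exact hg
  refine hQ ⟨Bf, X, fun K => ⟨⟨?_, ?_, ?_⟩, hsubage K⟩, ?_, ?_⟩
  · obtain ⟨m, e, s, A, hes, h1, h2, h3⟩ := hS' 0 (fun x => x.elim0)
    refine ⟨⟨m, A⟩, (fun x => (s x).elim0), fun x => (s x).elim0, ?_⟩
    rw [← h2]
    exact congrArg (fun F : Fin m → W => pull F S) (funext fun x => (s x).elim0)
  · rintro A C ⟨F, hF1, hF2⟩ hAC
    obtain ⟨k, hk⟩ := rq_embd_iff.1 hAC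
    exact ⟨F ∘ k, fun x => hF1 _, by rw [← rq_pull_comp, hF2, hk]⟩
  · rintro A ⟨F, hF1, hF2⟩ A' ⟨F', hF1', hF2'⟩
    let G : Fin (A.1 + A'.1) → W := fun x => Sum.elim F F' (finSumFinEquiv.symm x)
    obtain ⟨m, e, s, C, hes, h1, h2, h3⟩ := hS' _ G
    refine ⟨⟨m, C⟩, ⟨G ∘ s, fun x => ?_, h2⟩, ?_, ?_⟩
    · show ∃ k ∈ K, Sum.elim F F' (finSumFinEquiv.symm (s x)) ∈ N k
      rcases finSumFinEquiv.symm (s x) with y | y
      · exact hF1 y
      · exact hF1' y
    · refine rq_embd_iff.2 ⟨fun x => e (finSumFinEquiv (Sum.inl x)), ?_⟩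
      show pull _ (stE C) = stE A.2
      have h4 : pull (fun x => e (finSumFinEquiv (Sum.inl x))) (stE C) =
          pull (fun x => (finSumFinEquiv (Sum.inl x) : Fin (A.1 + A'.1))) (pull e (stE C)) := rfl
      rw [h4, h1, rq_pull_comp, ← hF2]
      congr 1
      funext x
      show Sum.elim F F' (finSumFinEquiv.symm (finSumFinEquiv (Sum.inl x))) = F x
      rw [Equiv.symm_apply_apply]
      rfl
    · refine rq_embd_iff.2 ⟨fun x => e (finSumFinEquiv (Sum.inr x)), ?_⟩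
      show pull _ (stE C) = stE A'.2
      have h4 : pull (fun x => e (finSumFinEquiv (Sum.inr x))) (stE C) =
          pull (fun x => (finSumFinEquiv (Sum.inr x) : Fin (A.1 + A'.1))) (pull e (stE C)) := rfl
      rw [h4, h1, rq_pull_comp, ← hF2']
      congr 1
      funext x
      show Sum.elim F F' (finSumFinEquiv.symm (finSumFinEquiv (Sum.inr x))) = F' x
      rw [Equiv.symm_apply_apply]
      rfl
  · rintro K K' hKK A ⟨F, hF1, hF2⟩
    exact ⟨F, fun x => (hF1 x).imp fun k hk => ⟨hKK hk.1, hk.2⟩, hF2⟩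
  · intro K k
    constructor
    · rintro ⟨F, hF1, hF2⟩
      by_contra hk
      obtain ⟨e, he⟩ := hX2 k
      refine hB2 k ⟨F ∘ e, fun x => ?_, ?_⟩
      · obtain ⟨i, hi1, hi2⟩ := hF1 (e x)
        exact ⟨i, fun h => hk (h ▸ hi1), hi2⟩
      · rw [← rq_pull_comp, hF2, he]
    · intro hk
      obtain ⟨s, hs⟩ := hX1 k
      exact ⟨f k ∘ s, fun x => ⟨k, hk, hfN k _⟩, hs⟩

end RQuot

end Pool.Agent.Lib.MP_4fb322_lc_q
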