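import Pool.Agent.Lib.MP_4fb322_lc_q.Assembly
import Pool.Agent.Lib.MP_4fb322_lc_q.Final
import Pool.Agent.Lib.MP_4fb322_lc_q.R2
import Pool.Agent.Lib.MP_4fb322_lc_q.R3
import Pool.Agent.Lib.MP_4fb322_lc_q.R4
import Pool.Agent.Lib.MP_4fb322_lc_q.REasy
import Pool.Agent.Lib.MP_4fb322_lc_q.RQuot
import Pool.Agent.Lib.MP_4fb322_lc_nip.N8

set_option autoImplicit false

/-!
# The frozen statement from theorem A and theorem B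
-/

namespace Pool.Agent.Lib.MP_4fb322_lc_q

theorem final_of_AB (hA : ThmA) (hB : ThmB) (I : Type) (ar : I → ℕ) (𝒜 : Set (Str ar))
    (h : IsAge 𝒜) : (NoAntichain 𝒜 ↔ SubagesWF 𝒜) ∧ (SubagesWF 𝒜 ↔ SubagesCtbl 𝒜) :=
  final_of (core_of_AB hA hB) Pool.Agent.Lib.MP_4fb322_lc_nip.thmC r1 r2 r3 r4 r5 r6 r7 r8 I ar 𝒜 h

end Pool.Agent.Lib.MP_4fb322_lc_q
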