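import Mathlib
import Pool.Agent.Lib.MP_4fb322_lc_q.Iface

set_option autoImplicit false

/-!
# A + B => CORE, and CORE + C + R => the frozen statement
-/

namespace Pool.Agent.Lib.MP_4fb322_lc_q

open Set Filter

namespace Tm

variable {L : Type}

theorem lv_comb (t : Tm L) (l : List (Tm L)) : (comb t l).lv = t.lv ++ l.flatMap Tm.lv := by
  induction l generalizing t with
  | nil => simp [comb]
  | cons s l ih => simp [comb, lv, ih]

end Tm

theorem Sub.refl {L : Type} (t : Tm L) : Sub t t := by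
  induction t with
  | leaf a => exact .leaf a
  | node s t hs ht => exact .node hs ht

theorem Sub.comb {L : Type} (t : Tm L) (l : List (Tm L)) : ∀ s ∈ t :: l, Sub s (Tm.comb t l) := by
  induction l generalizing t with
  | nil =>
    intro s hs
    rw [List.mem_singleton] at hs
    subst hs
    exact Sub.refl _
  | cons u l ih =>
    intro s hs
    rcases List.mem_cons.1 hs with rfl | hs
    · exact Sub.left (Sub.refl _)
    · exact Sub.right (ih u s hs)

theorem Sub.lv_subset {L : Type} {s t : Tm L} (h : Sub s t) : s.lv ⊆ t.lv := by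
  induction h with
  | leaf a => exact fun _ h => h
  | left _ ih => exact fun x hx => List.mem_append_left _ (ih hx)
  | right _ ih => exact fun x hx => List.mem_append_right _ (ih hx)
  | node _ _ ih1 ih2 =>
    intro x hx
    rcases List.mem_append.1 hx with h | h
    · exact List.mem_append_left _ (ih1 h)
    · exact List.mem_append_right _ (ih2 h)

theorem core_of_AB (hA : ThmA) (hB : ThmB) : Core := by
  classical
  intro I ar V _ M hE hF hN a z ha hz hM
  rcases isEmpty_or_nonempty V with hV | hV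
  · obtain ⟨f0, -, h0⟩ := ha 0
    obtain ⟨f1, -, h1⟩ := ha 1
    refine ⟨0, 1, by decide, fun x => isEmptyElim (f0 x), ?_⟩
    rw [← h1, ← h0]
    have h2 : f1 ∘ (fun x => isEmptyElim (f0 x)) = f0 := funext fun x => isEmptyElim (f0 x)
    show pull (f1 ∘ fun x => isEmptyElim (f0 x)) M = pull f0 M
    rw [h2]
  obtain ⟨Y, ta, tz, pa, pz, hY, ht, hp, hnd, hdj, hRa, hRz⟩ := hB I ar V M hE hF hN a z ha hz hM
  -- the pins of `z` in `a m` are constant
  obtain ⟨K0, hK0⟩ : ∃ K0 : Finset Y.P, ∀ᶠ m in (hyperfilter ℕ : Filter ℕ), pa m ∩ pz = K0 := by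
    by_contra hno
    rw [not_exists] at hno
    have h1 : ∀ K ∈ pz.powerset, ∀ᶠ m in (hyperfilter ℕ : Filter ℕ), ¬ pa m ∩ pz = K := by
      intro K _
      exact Ultrafilter.eventually_not.2 (hno K)
    have h2 : ∀ᶠ m in (hyperfilter ℕ : Filter ℕ), ∀ K ∈ pz.powerset, ¬ pa m ∩ pz = K := by
      rw [← Filter.eventually_all_finset] at *
      exact h1
    obtain ⟨m, hm⟩ := h2.exists
    exact hm _ (Finset.mem_powerset.2 Finset.inter_subset_right) rfl
  obtain ⟨n0, hn0⟩ := hK0.exists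
  set y : Tm Y.L := Tm.comb (ta n0 0) ((List.range z.1).map fun c => ta n0 (c + 1)) with hy
  have hsub : ∀ c ≤ z.1, Sub (ta n0 c) y := by
    intro c hc
    apply Sub.comb
    rcases Nat.eq_zero_or_pos c with rfl | hc0
    · exact List.mem_cons_self
    · refine List.mem_cons_of_mem _ (List.mem_map.2 ⟨c - 1, List.mem_range.2 (by omega), ?_⟩)
      congr 1
      omega
  have hynd : y.lv.Nodup := by
    rw [hy, Tm.lv_comb, List.nodup_append]
    refine ⟨hnd n0 0, ?_, ?_⟩
    · rw [List.nodup_flatMap]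
      refine ⟨?_, ?_⟩
      · intro t ht
        obtain ⟨c, _, rfl⟩ := List.mem_map.1 ht
        exact hnd _ _
      · rw [List.pairwise_map]
        refine (List.nodup_range (n := z.1)).imp ?_
        intro c c' hcc l hl hl'
        exact hdj n0 (c + 1) (c' + 1) (by omega) l hl hl'
    · intro l hl l' hl' hll
      subst hll
      obtain ⟨t, ht, hlt⟩ := List.mem_flatMap.1 hl'
      obtain ⟨c, _, rfl⟩ := List.mem_map.1 ht
      exact hdj n0 0 (c + 1) (by omega) l hl hlt
  have hend := hA I ar Y hY y hynd (pa n0) (fun _ => univ) (fun _ => univ_mem)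
  have hne : ∀ᶠ m in (hyperfilter ℕ : Filter ℕ), m ≠ n0 := by
    have : ({n0} : Set ℕ)ᶜ ∈ (hyperfilter ℕ : Filter ℕ) :=
      Set.Finite.compl_mem_hyperfilter (Set.finite_singleton n0)
    filter_upwards [this] with m hm using hm
  obtain ⟨m, ⟨hmK, e, -, he2, he3, he4⟩, hm0, hmn⟩ := (hend.and (hK0.and hne)).exists
  refine ⟨n0, m, fun h => hmn h.symm, ?_⟩
  obtain ⟨αz, hαz, hαzr, -⟩ := hRz m
  -- a copy of `a n0` without points in the copy of `z`
  obtain ⟨c, hcz, hc⟩ : ∃ c ≤ z.1, ∀ q : Pt Y.sz, q.1 ∈ (ta n0 c).lv → (e q.1).1 ∈ (ta m 0).lv := by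
    by_contra hno
    have hno' : ∀ c : Fin (z.1 + 1), ∃ q : Pt Y.sz, q.1 ∈ (ta n0 c).lv ∧
        (e q.1).1 ∉ (ta m 0).lv := by
      intro c
      by_contra h
      push Not at h
      exact hno ⟨c, Nat.lt_succ_iff.1 c.2, h⟩
    choose q hq1 hq2 using hno'
    have hin : ∀ c : Fin (z.1 + 1), ∃ x : Fin z.1, αz x = mvPt e (Sum.inr (q c)) := by
      intro c
      have hc1 := hq1 c
      have hc2 := hq2 c
      have hc3 : (e (q c).1).1 ∈ (Y.t m).lv := by
        apply he2
        exact (hsub c (Nat.lt_succ_iff.1 c.2)).lv_subset hc1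
      rw [ht m] at hc3
      have hc4 : (e (q c).1).1 ∈ (tz m).lv := by
        rcases List.mem_append.1 hc3 with h | h
        · exact absurd h hc2
        · exact h
      have : mvPt e (Sum.inr (q c)) ∈ Set.range αz := by
        rw [hαzr]
        exact Or.inr ⟨_, hc4, rfl⟩
      exact this
    choose x hx using hin
    have hxi : Function.Injective x := by
      intro c c' hcc
      have h1 : mvPt e (Sum.inr (q c) : Y.P ⊕ Pt Y.sz) = mvPt e (Sum.inr (q c')) := by
        rw [← hx, ← hx, hcc]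
      have hmem : ∀ c : Fin (z.1 + 1), (Sum.inr (q c) : Y.P ⊕ Pt Y.sz) ∈
          pts Y.sz y (pa n0 : Set Y.P) := fun c =>
        Or.inr ⟨_, (hsub c (Nat.lt_succ_iff.1 c.2)).lv_subset (hq1 c), rfl⟩
      have h2 := he3 (hmem c) (hmem c') h1
      have h3 : q c = q c' := Sum.inr_injective h2
      by_contra hne
      have h4 := hq1 c
      rw [h3] at h4
      exact hdj n0 c c' (fun h => hne (Fin.ext h)) _ h4 (hq1 c')
    have := Fintype.card_le_of_injective x hxi
    simp at this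
  -- the embedding
  obtain ⟨α, hα, hαr, hαp⟩ := hRa n0 c
  obtain ⟨β, hβ, hβr, hβp⟩ := hRa m 0
  have hpt : ∀ x, α x ∈ pts Y.sz (ta n0 c) (pa n0 : Set Y.P) := fun x => by
    rw [← hαr]; exact ⟨x, rfl⟩
  have hfx : ∀ x, ∃ w, β w = mvPt e (α x) := by
    intro x
    have : mvPt e (α x) ∈ Set.range β := by
      rw [hβr]
      rcases hpt x with ⟨p, hp1, hp2⟩ | ⟨q, hq1, hq2⟩
      · refine Or.inl ⟨p, ?_, by rw [hp2]; rfl⟩
        have h1 : p ∈ Y.pn m := hmK hp1
        rcases (hp m p).1 h1 with h | h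
        · exact h
        · have h2 : p ∈ pa n0 ∩ pz := Finset.mem_inter.2 ⟨hp1, h⟩
          rw [hn0, ← hm0] at h2
          exact (Finset.mem_inter.1 h2).1
      · rw [hq2]
        exact Or.inr ⟨_, hc q hq1, rfl⟩
    exact this
  choose f hf using hfx
  refine ⟨f, ?_⟩
  funext i
  ext t
  have hsc : Sub (ta n0 c) y := hsub c hcz
  have hsm : Sub (ta m 0) (Y.t m) := by rw [ht m]; exact Sub.left (Sub.refl _)
  have key1 : t ∈ (a n0).2 i ↔ α ∘ t ∈ Y.S (ta n0 c) i := by rw [← hαp]; exact Iff.rfl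
  have key2 : t ∈ pull f (a m).2 i ↔ (fun j => mvPt e (α (t j))) ∈ Y.S (ta m 0) i := by
    rw [← hβp]
    have : β ∘ (f ∘ t) = fun j => mvPt e (α (t j)) := by
      funext j
      exact hf _
    show β ∘ (f ∘ t) ∈ Y.S (ta m 0) i ↔ _
    rw [this]
  have key3 : α ∘ t ∈ Y.S (ta n0 c) i ↔ α ∘ t ∈ Y.S y i := by
    refine hY.res _ _ hsc hynd i _ fun j => ?_
    rcases hpt (t j) with ⟨p, _, hp2⟩ | h
    · exact Or.inl ⟨p, mem_univ _, hp2⟩
    · exact Or.inr h
  have key4 : (fun j => mvPt e (α (t j))) ∈ Y.S (ta m 0) i ↔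
      (fun j => mvPt e (α (t j))) ∈ Y.S (Y.t m) i := by
    refine hY.res _ _ hsm (hY.nodup m) i _ fun j => ?_
    have : mvPt e (α (t j)) ∈ pts Y.sz (ta m 0) (pa m : Set Y.P) := by
      rw [← hβr]
      exact ⟨_, hf _⟩
    rcases this with ⟨p, _, hp2⟩ | h
    · exact Or.inl ⟨p, mem_univ _, hp2⟩
    · exact Or.inr h
  have key5 : α ∘ t ∈ Y.S y i ↔ (fun j => mvPt e ((α ∘ t) j)) ∈ Y.S (Y.t m) i := by
    refine he4 i _ fun j => ?_
    rcases hpt (t j) with h | ⟨q, hq1, hq2⟩
    · exact Or.inl h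
    · exact Or.inr ⟨q, hsc.lv_subset hq1, hq2⟩
  rw [key2, key4, key1, key3, key5]
  rfl

end Pool.Agent.Lib.MP_4fb322_lc_q
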